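import Pool.Agent.Q170.UZ.Fin

/-!
# MP_d83ecd_ag: no atypical intersections at all for one hundred percent of the integral members of
families of curves in `Y(1)^n` with one degenerate hypersurface

`Y(1)^n` is identified with `ℂ^n` by the elliptic modular function `jj = j = E₄³ / Δ`. A special
subvariety of `Y(1)^n` of dimension `r` is given by a `SpecialVariety`: its points are the points
`x` with `x_i = const_i` for the constant coordinates, and `x_i = j (g_i z_l)` for the coordinates of
class `l`, `z_1, …, z_r` free in the upper half plane and `g_i` a fixed integral matrix of positive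
determinant. In the definition of special subvarieties the constants are values of `j` at CM points.
We allow also all constants which are integral over the ring generated by a given set `Γ`.

**No atypical intersections.** `NoAtypical Γ S`: there is *no point at all* of `S` on a special
subvariety of codimension at least two, and each proper special subvariety contains only finitely
many points of `S`. So a curve `S` with this property has no atypical subvariety: the Zilber-Pink
conjecture holds for `S` with the empty set of exceptions.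

**Families of curves.** Let `F_τ` be finitely many forms in the homogeneous coordinates
`(X_1, Z_1), …, (X_n, Z_n)` of `(P¹)^n` (the variables are `(i, false) = X_i` and `(i, true) = Z_i`,
and `x_i = X_i / Z_i`), whose coefficients are polynomials in `r` parameters `t = (t_1, …, t_r)` over
the field `Q̄` of the algebraic numbers. They define an algebraic family of subschemes `V_t` of
`(P¹)^n`. Let `f_i`, `g_i`, `P ∈ Q̄[t]` and `w_i > 0`, and let `X_t ⊂ Y(1)^n` be the set of all `x` with
`x_i = f_i (t) / (P (t) ^ w_i g_i (t)) * y_i`, `y ∈ V_t ∩ ℂ^n` (`member`).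

Let `P = 0` be an irreducible hypersurface of the parameter space and let `t₀ ∈ ℂ^r` be a generic
point of it: `h (t₀) = 0` for `h ∈ Q̄[t]` if and only if `P` divides `h`. So `X_t` tends to the cusp
`(∞, …, ∞)` if `t` tends to a generic point of this hypersurface. As in
`MP_e573c6_ag.OneDegenerateHypersurface` we assume that the curve `V_{t₀}` is integral and in general
position (`DegeneratesAt X t₀`):

* the ideals in `ℂ[x]` of `V_{t₀}` in the affine charts `Z_1 = … = Z_n = 1` and
  `X_a = 1`, `Z_i = 1` for `i ≠ a` are prime ideals; the coordinates `x_i` are not constant on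
  `V_{t₀}`;
* for `i ≠ j` the ideal generated by the `F_τ` contains a form
  `∑_{u ≤ a, v ≤ b} g_{uv} X_i ^ u Z_i ^ (a - u) X_j ^ v Z_j ^ (b - v)`, where the `g_{uv}` are
  polynomials in `t` with `g_{00}, g_{a0}, g_{0b}, g_{ab} ≠ 0` at `t₀`, and where the form at `t₀` is
  not divisible by a form `X_i - c Z_i`. So the zeros and poles of `x_i` on `V_{t₀}` are
  different from those of `x_j`;
* `f_i (t₀) ≠ 0`, `g_i (t₀) ≠ 0`.

**The multiplicative condition** (`Independent X t₀`). For a point `y` of `V_{t₀}` let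
`z_i = f_i (t₀) / g_i (t₀) * y_i`. Two coordinates `j ≠ l` are *related* at `y` if
`z_l ^ (w_j b) = z_j ^ (w_l b)` for some `b ≥ 1` (if all the `w_i` are equal: if `z_j / z_l` is a root
of unity). The condition is that
* at a point with `y_1, …, y_n ∈ ℂ^*` there is at most one related pair of coordinates,
* at a point with `y_a = 0` or `y_a = ∞` no two of the other coordinates are related.

Such conditions are necessary: if for example `V_t = V` and `f_i = g_i = w_i = 1`, and `y_1 = y_2`,
`y_3 = y_4` at a point of `V`, then `x_1 = x_2`, `x_3 = x_4` at a point of each `X_t`. They hold for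
almost all curves: for fixed `V_{t₀}` the constants `u_i = f_i (t₀) / g_i (t₀)` have to avoid
countably many proper closed subvarieties. For instance let `V` be the curve
`y_i = (s - a_i) / (s - b_i)`, where the `2 n` algebraic numbers `a_i`, `b_i` are different, `w_i = 1`,
and let `u_i = M ^ (k_i)`, where the `k_i` are integers with distinct differences `k_i - k_j`
(`i ≠ j`), `M` large: the absolute value of `z_j / z_l = M ^ (k_j - k_l) y_j / y_l` is one only if `s`
is close to one of the numbers `a_j`, `b_j`, `a_l`, `b_l`, with a distance which is determined by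
`k_j - k_l`.

**Theorem.** Let `X` be such a family.

1. (Three places.) There are `Q₁` and `E₁ ∈ Q̄[t]` with `E₁ (t₀) ≠ 0`, such that for all `B₁` there are
`Q₂` and `E₂` with `E₂ (t₀) ≠ 0`, such that for all `B₂` there are `Q₃` and `E₃` with `E₃ (t₀) ≠ 0` with
the following property. Let `t` be any point with coordinates in `Q̄`. Suppose that for `m = 1, 2, 3`
there is a number field `K_m ⊂ ℂ` which contains the `t_l`, `P (t)`, `E_m (t)`, `f_i (t) / g_i (t)` and
`Γ`, and a prime `v_m` of `K_m` over a prime number `p_m > Q_m`, unramified, such that `t` and `Γ` are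
integral at `v_m`, `v_m (P (t)) > 0` (`t` is on the hypersurface modulo `v_m`), `v_m (E_m (t)) = 0`,
`v_m (f_i (t) / g_i (t)) = 0`, and the residue fields of `v_1` and `v_2` have at most `B_1` and `B_2`
elements. If `P (t) ≠ 0`, then `X_t` has no atypical intersections.

2. (Residue classes.) There are `M ≥ 1` and `a ∈ ℤ^r` such that `X_t` has no atypical intersections
for all `t ∈ ℤ^r` with `t ≡ a` modulo `M` and `P (t) ≠ 0`.

3. (One hundred percent.) Suppose that `P` has degree one in one of the variables, or that the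
hypersurface `P = 0` is unirational over `Q̄` (`Unirational t₀`: the coordinates of `t₀` are rational
functions of `r - 1` algebraically independent numbers). This is no condition for `r = 1`. Then for
every `ε > 0` there is `H₀` such that for all `H ≥ H₀` the members `X_t` have no atypical
intersections for all `t ∈ ℤ^r` with `|t_j| ≤ H` with at most `ε (2 H + 1) ^ r` exceptions.

In 2 and 3 the constants of the special subvarieties can be singular moduli, and integral over
`ℤ[Γ]` for any given finite set `Γ` of algebraic numbers.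

For example, for a curve `V` over `Q̄` and algebraic numbers `u_i` as above, the curve
`{(u_1 y_1 / m, …, u_n y_n / m) : y ∈ V}` has no atypical intersections for one hundred percent of the
integers `m`, in particular it contains no special point, no point with two singular moduli among
its coordinates, and no point with two isogenies between its coordinates; the same is true for
one hundred percent of the rational numbers `m` (ordered by height), with `r = 2`, `m = t_1 / t_2`,
`P = t_1`, `f_i = u_i t_2`.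

In `MP_e573c6_ag.OneDegenerateHypersurface` (same families) it is proved that the set of the
atypical points of `X_t` is finite. The absence of atypical intersections was known for families with
many degenerate members (`RationalParameters` and `MultiParameterFamilies` here: at least `m + 2`
hypersurfaces).

**Proof.** The local theorem (`Pool.Agent.Q170.UZ`) is made uniform: for all `t` near the
hypersurface at a place `v` with a residue field of at most `B` elements, each atypical point `x` of
`X_t` has at most one coordinate with `v (y_a) ≠ 0`, the other coordinates are not constant, and if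
two of them are in the same class, they are connected by an isogeny of degree at most `G`, where `G`
depends on `B` and the family only. At a second place, the isogeny gives the relation
`qT (x_j) ^ α = qT (x_l) ^ β` between the Tate parameters, so the coordinates `j`, `l` are related
modulo the second place, with an exponent `b` which is bounded in terms of `G`. If the characteristic of
the second place is large in terms of `G`, this is compared with the multiplicative
condition by the Nullstellensatz over the function field of the hypersurface. A combinatorial argument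
with three places shows that there is no atypical point. For 3, the sum of the
reciprocals of the primes with a place of degree one in a number field diverges, so that almost all
`t ∈ ℤ^r` are near the hypersurface at a place with bounded residue field.
-/

set_option autoImplicit false

namespace Pool.Agent.Results.MP_d83ecd_ag.NoAtypicalMembers

open H294ZP UpperHalfPlane IsDedekindDomain NumberField

/-- A special subvariety of dimension `r` of `Y(1)^n`. The constant coordinates are those with
`cls i = none`. The allowed constants are the singular moduli and the numbers which are integral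
over the ring generated by `Γ`. -/
structure SpecialVariety (Γ : Set ℂ) (n r : ℕ) where
  cls : Fin n → Option (Fin r)
  surj : ∀ l : Fin r, ∃ i, cls i = some l
  mat : Fin n → Matrix (Fin 2) (Fin 2) ℤ
  det_pos : ∀ i, 0 < (mat i).det
  const : Fin n → ℂ
  allowed : ∀ i, (∃ τ : ℍ, IsCM τ ∧ const i = jj τ) ∨ IsIntegral (Algebra.adjoin ℤ Γ) (const i)

/-- The points of a special subvariety of `Y(1)^n`. -/
def SpecialVariety.locus {Γ : Set ℂ} {n r : ℕ} (Z : SpecialVariety Γ n r) : Set (Fin n → ℂ) :=
  {x | ∃ z : Fin r → ℍ, ∀ i, (Z.cls i = none → x i = Z.const i) ∧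
    ∀ l, Z.cls i = some l → ∃ w : ℍ,
      (w : ℂ) * (Z.mat i 1 0 * z l + Z.mat i 1 1) = Z.mat i 0 0 * z l + Z.mat i 0 1 ∧
      x i = jj w}

/-- There is no point of `S` on a special subvariety of codimension at least two, and each proper
special subvariety contains only finitely many points of `S`. -/
def NoAtypical (Γ : Set ℂ) {n : ℕ} (S : Set (Fin n → ℂ)) : Prop :=
  (∀ (r : ℕ) (Z : SpecialVariety Γ n r), r + 2 ≤ n → ∀ x ∈ S, x ∉ Z.locus) ∧
  ∀ (r : ℕ) (Z : SpecialVariety Γ n r), r < n → {x | x ∈ S ∧ x ∈ Z.locus}.Finite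

/-- The homogeneous coordinates of the point with affine coordinates `y` in the chart `c` of
`(P¹)^n`. In the chart `none` they are `X_i = y_i`, `Z_i = 1` for all `i`, in the chart `some a`
they are `X_a = 1`, `Z_a = y_a`, and `X_i = y_i`, `Z_i = 1` for `i ≠ a`. -/
def coord {A : Type} [CommRing A] {n : ℕ} (c : Option (Fin n)) (y : Fin n → A)
    (q : Fin n × Bool) : A :=
  if c = some q.1 then (if q.2 then y q.1 else 1) else (if q.2 then 1 else y q.1)

/-- `F` is homogeneous in each pair of variables `(X_i, Z_i) = ((i, false), (i, true))`. -/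
def Multihomogeneous {A : Type} [CommRing A] {n : ℕ} (F : MvPolynomial (Fin n × Bool) A) : Prop :=
  ∃ δ : Fin n → ℕ, ∀ m ∈ F.support, ∀ i, m (i, false) + m (i, true) = δ i

/-- The form `∑ g_{uv} X_i ^ u Z_i ^ (a - u) X_j ^ v Z_j ^ (b - v)`. -/
noncomputable def pairForm {A : Type} [CommRing A] {n : ℕ} (i j : Fin n) (a b : ℕ)
    (g : ℕ → ℕ → A) : MvPolynomial (Fin n × Bool) A :=
  ∑ u ∈ Finset.range (a + 1), ∑ v ∈ Finset.range (b + 1),
    MvPolynomial.C (g u v) * MvPolynomial.X (i, false) ^ u * MvPolynomial.X (i, true) ^ (a - u) *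
      MvPolynomial.X (j, false) ^ v * MvPolynomial.X (j, true) ^ (b - v)

/-- The value at `t ∈ ℂ^r` of a polynomial whose coefficients are algebraic numbers. -/
noncomputable def value {r : ℕ} (t : Fin r → ℂ) :
    MvPolynomial (Fin r) (algebraicClosure ℚ ℂ) →+* ℂ :=
  MvPolynomial.eval₂Hom (algebraMap (algebraicClosure ℚ ℂ) ℂ) t

/-- The data of a family: the forms `F_τ`, the polynomials `f_i`, `g_i` and `P`, and the orders
`w_i`. -/
structure Family (n r : ℕ) (κ : Type) where
  F : κ → MvPolynomial (Fin n × Bool) (MvPolynomial (Fin r) (algebraicClosure ℚ ℂ))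
  f : Fin n → MvPolynomial (Fin r) (algebraicClosure ℚ ℂ)
  g : Fin n → MvPolynomial (Fin r) (algebraicClosure ℚ ℂ)
  P : MvPolynomial (Fin r) (algebraicClosure ℚ ℂ)
  w : Fin n → ℕ

/-- The ideal of `V_t` in the chart `c`. -/
noncomputable def chartIdeal {n r : ℕ} {κ : Type} (X : Family n r κ) (t : Fin r → ℂ)
    (c : Option (Fin n)) : Ideal (MvPolynomial (Fin n) ℂ) :=
  Ideal.span (Set.range fun k => MvPolynomial.eval₂
    (MvPolynomial.C.comp (value t)) (coord c MvPolynomial.X) (X.F k))

/-- `t₀` is a generic point of the hypersurface `P = 0`, and `V_{t₀}` is integral and in general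
position. -/
structure DegeneratesAt {n r : ℕ} {κ : Type} (X : Family n r κ) (t₀ : Fin r → ℂ) : Prop where
  ne : X.P ≠ 0
  generic : ∀ h, value t₀ h = 0 ↔ X.P ∣ h
  form : ∀ k, Multihomogeneous (X.F k)
  prime : ∀ c, (chartIdeal X t₀ c).IsPrime
  nonconstant : ∀ (i : Fin n) (c : ℂ), MvPolynomial.X i - MvPolynomial.C c ∉ chartIdeal X t₀ none
  general : ∀ i j : Fin n, i ≠ j → ∃ (a b : ℕ)
    (g : ℕ → ℕ → MvPolynomial (Fin r) (algebraicClosure ℚ ℂ)),
    value t₀ (g 0 0) ≠ 0 ∧ value t₀ (g a 0) ≠ 0 ∧ value t₀ (g 0 b) ≠ 0 ∧ value t₀ (g a b) ≠ 0 ∧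
    (∀ c : ℂ, ∃ v ≤ b, ∑ u ∈ Finset.range (a + 1), value t₀ (g u v) * c ^ u ≠ 0) ∧
    pairForm i j a b g ∈ Ideal.span (Set.range X.F)
  num : ∀ i, value t₀ (X.f i) ≠ 0
  den : ∀ i, value t₀ (X.g i) ≠ 0
  pole : ∀ i, 0 < X.w i

/-- `y` is a point of `V_t`, given by its coordinates in the chart `c`. -/
def IsPoint {n r : ℕ} {κ : Type} (X : Family n r κ) (t : Fin r → ℂ) (c : Option (Fin n))
    (y : Fin n → ℂ) : Prop :=
  ∀ k, MvPolynomial.eval₂ (value t) (coord c y) (X.F k) = 0

/-- The coordinates `j` and `l` are related at `y`: `z_l ^ (w_j b) = z_j ^ (w_l b)` for some `b > 0`,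
where `z_i = f_i (t₀) / g_i (t₀) * y_i`. -/
def Related {n r : ℕ} {κ : Type} (X : Family n r κ) (t₀ : Fin r → ℂ) (y : Fin n → ℂ)
    (j l : Fin n) : Prop :=
  ∃ b : ℕ, 0 < b ∧ (value t₀ (X.f l) / value t₀ (X.g l) * y l) ^ (X.w j * b) =
    (value t₀ (X.f j) / value t₀ (X.g j) * y j) ^ (X.w l * b)

/-- The multiplicative condition. In `boundary`, the point `y` has the coordinate `y_a = 0` in the
chart `none` (zero of the coordinate `a`) or in the chart `some a` (pole of the coordinate `a`). -/
structure Independent {n r : ℕ} {κ : Type} (X : Family n r κ) (t₀ : Fin r → ℂ) : Prop where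
  interior : ∀ y, IsPoint X t₀ none y → (∀ i, y i ≠ 0) → ∀ j l j' l', j ≠ l → j' ≠ l' →
    Related X t₀ y j l → Related X t₀ y j' l' → (j = j' ∧ l = l') ∨ (j = l' ∧ l = j')
  boundary : ∀ (a : Fin n) (c : Option (Fin n)), (c = none ∨ c = some a) → ∀ y,
    IsPoint X t₀ c y → y a = 0 → ∀ j l, j ≠ l → j ≠ a → l ≠ a → ¬ Related X t₀ y j l

/-- The coordinates of `t₀` are rational functions (with algebraic coefficients) of `r - 1`
algebraically independent complex numbers `s`. -/
def Unirational {r : ℕ} (t₀ : Fin r → ℂ) : Prop :=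
  ∃ (s : Fin (r - 1) → ℂ) (a : Fin r → MvPolynomial (Fin (r - 1)) (algebraicClosure ℚ ℂ))
    (b : MvPolynomial (Fin (r - 1)) (algebraicClosure ℚ ℂ)),
    (∀ h, value s h = 0 → h = 0) ∧ value s b ≠ 0 ∧ ∀ i, t₀ i = value s (a i) / value s b

/-- The member `X_t` of the family: all `x` with `x_i = f_i (t) / (P (t) ^ w_i * g_i (t)) * y_i`, `y` in
`V_t ∩ ℂ^n`. -/
noncomputable def member {n r : ℕ} {κ : Type} (X : Family n r κ) (t : Fin r → ℂ) :
    Set (Fin n → ℂ) :=
  {x | ∃ y : Fin n → ℂ, (∀ k, MvPolynomial.eval₂ (value t) (coord none y) (X.F k) = 0) ∧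
    ∀ i, x i = value t (X.f i) / (value t X.P ^ X.w i * value t (X.g i)) * y i}

/-- The elements of `K` which are integral at `v`. -/
def integralAt {K : Type} [Field K] [NumberField K] (σ : K →+* ℂ) (v : HeightOneSpectrum (𝓞 K)) :
    Set ℂ :=
  {z | ∃ x : K, v.valuation K x ≤ 1 ∧ σ x = z}

/-- `t` is on the hypersurface `P = 0`, outside of `E = 0`, modulo an unramified place `v` of a number
field `K` (embedded into `ℂ` by `σ`) over a prime number `p > Q`, whose residue field has at most `B`
elements. -/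
def Near {n r : ℕ} {κ : Type} (X : Family n r κ)
    (E : MvPolynomial (Fin r) (algebraicClosure ℚ ℂ)) (Q B : ℕ) (Γ : Set ℂ) (t : Fin r → ℂ) :
    Prop :=
  ∃ (K : Type) (_ : Field K) (_ : NumberField K) (σ : K →+* ℂ) (v : HeightOneSpectrum (𝓞 K))
    (p : ℕ) (s : Fin r → K), (∀ l, σ (s l) = t l) ∧ p.Prime ∧ Q < p ∧ (p : 𝓞 K) ∈ v.asIdeal ∧
    (p : 𝓞 K) ∉ v.asIdeal ^ 2 ∧ Nat.card (𝓞 K ⧸ v.asIdeal) ≤ B ∧ (∀ l, v.valuation K (s l) ≤ 1) ∧
    (∃ a : K, σ a = value t X.P ∧ a ≠ 0 ∧ v.valuation K a < 1) ∧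
    (∃ b : K, σ b = value t E ∧ v.valuation K b = 1) ∧
    (∀ i, ∃ u : K, σ u = value t (X.f i) / value t (X.g i) ∧ v.valuation K u = 1) ∧
    Γ ⊆ integralAt σ v

/-- Special subvarieties in the form used in the proof. -/
def SpecialVariety.toSV {Γ : Set ℂ} {n r : ℕ} (Z : SpecialVariety Γ n r) :
    Pool.Agent.Y226.ZM.SV Γ n r where
  cls := Z.cls
  mat := Z.mat
  det_pos := Z.det_pos
  const := Z.const
  int := fun i => by
    rcases Z.allowed i with ⟨τ, hτ, h⟩ | h
    · rw [h]
      exact (singular_modulus_integral τ hτ).tower_top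
    · exact h

theorem noAtypical_of {Γ : Set ℂ} {n : ℕ} {S : Set (Fin n → ℂ)}
    (h : Pool.Agent.Q170.UZ.NoAt Γ S) : NoAtypical Γ S :=
  ⟨fun r Z hr x hx hZ => h.1 r Z.toSV hr x hx hZ,
    fun r Z hr => (h.2 r Z.toSV hr).subset fun _ hx => hx⟩

theorem member_eq {n r : ℕ} {κ : Type} (X : Family n r κ) (t : Fin r → ℂ) :
    member X t = Pool.Agent.Q170.FP.memH X.F X.f X.g X.P X.w t := by
  ext x
  constructor
  · rintro ⟨y, hy, hx⟩
    exact ⟨y, hy, hx⟩
  · rintro ⟨y, hy, hx⟩
    exact ⟨y, hy, hx⟩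

theorem near_of {n r : ℕ} {κ : Type} {X : Family n r κ}
    {E : MvPolynomial (Fin r) (algebraicClosure ℚ ℂ)} {Q B : ℕ} {Γ : Set ℂ} {t : Fin r → ℂ}
    (h : Near X E Q B Γ t) : Pool.Agent.Q170.UZ.Near1 X.f X.g X.P E Q B Γ t := by
  obtain ⟨K, _, _, σ, v, p, s, hs, hp, hQ, hpv, hpv2, hB, hint, ha, hb, hu, hΓ⟩ := h
  have e : (fun l => σ (s l)) = t := funext hs
  refine ⟨K, inferInstance, inferInstance, σ, v, p, s, hs, hQ, hB,
    ⟨hp, hpv, hpv2, hint, ?_, ?_, ?_⟩, hΓ⟩
  · rw [e]
    exact ha
  · rw [e]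
    exact hb
  · rw [e]
    exact hu

theorem exists_GM {n r : ℕ} {κ : Type} (X : Family n r κ) (t₀ : Fin r → ℂ)
    (h : DegeneratesAt X t₀) : ∃ d₀ : ℕ, Pool.Agent.Y92.ZX.GM d₀
      (MvPolynomial.eval₂Hom Pool.Agent.Y226.rA t₀) X.F := by
  classical
  have hgen : ∀ q : Fin n × Fin n, ∃ (a b : ℕ)
      (g : ℕ → ℕ → MvPolynomial (Fin r) (algebraicClosure ℚ ℂ)), q.1 ≠ q.2 →
      value t₀ (g 0 0) ≠ 0 ∧ value t₀ (g a 0) ≠ 0 ∧ value t₀ (g 0 b) ≠ 0 ∧
      value t₀ (g a b) ≠ 0 ∧
      (∀ c : ℂ, ∃ v ≤ b, ∑ u ∈ Finset.range (a + 1), value t₀ (g u v) * c ^ u ≠ 0) ∧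
      pairForm q.1 q.2 a b g ∈ Ideal.span (Set.range X.F) := by
    intro q
    by_cases hq : q.1 = q.2
    · exact ⟨0, 0, 0, fun h' => absurd hq h'⟩
    · obtain ⟨a, b, g, h1⟩ := h.general q.1 q.2 hq
      exact ⟨a, b, g, fun _ => h1⟩
  choose a b g hg using hgen
  refine ⟨∑ q, (a q + b q), h.form, h.prime, h.nonconstant, fun i j hij => ?_⟩
  obtain ⟨h1, h2, h3, h4, h5, h6⟩ := hg (i, j) hij
  have h7 : a (i, j) + b (i, j) ≤ ∑ q, (a q + b q) :=
    Finset.single_le_sum (f := fun q => a q + b q) (fun _ _ => Nat.zero_le _)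
      (Finset.mem_univ (i, j))
  exact ⟨a (i, j), b (i, j), g (i, j), by omega, by omega, h1, h2, h3, h4, h5, h6⟩

/-- No atypical intersections for one hundred percent of the integral members of families of curves
in `Y(1)^n` with one degenerate hypersurface. -/
theorem result {n r : ℕ} {κ : Type} [Finite κ] (X : Family n r κ) (t₀ : Fin r → ℂ)
    (h : DegeneratesAt X t₀) (hI : Independent X t₀) :
    (∃ (Q₁ : ℕ) (E₁ : MvPolynomial (Fin r) (algebraicClosure ℚ ℂ)), value t₀ E₁ ≠ 0 ∧ ∀ B₁ : ℕ,
      ∃ (Q₂ : ℕ) (E₂ : MvPolynomial (Fin r) (algebraicClosure ℚ ℂ)), value t₀ E₂ ≠ 0 ∧ ∀ B₂ : ℕ,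
      ∃ (Q₃ : ℕ) (E₃ : MvPolynomial (Fin r) (algebraicClosure ℚ ℂ)), value t₀ E₃ ≠ 0 ∧
      ∀ (Γ : Set ℂ) (t : Fin r → ℂ), Near X E₁ Q₁ B₁ Γ t → Near X E₂ Q₂ B₂ Γ t →
        (∃ B₃, Near X E₃ Q₃ B₃ Γ t) → NoAtypical Γ (member X t)) ∧
    ∀ Γ : Finset ℂ, (∀ γ ∈ Γ, IsAlgebraic ℚ γ) →
      (∃ (M : ℕ) (a : Fin r → ℤ), 0 < M ∧ ∀ t : Fin r → ℤ, (∀ j, (M : ℤ) ∣ t j - a j) →
        value (fun j => (t j : ℂ)) X.P ≠ 0 →
        NoAtypical (Γ : Set ℂ) (member X fun j => (t j : ℂ))) ∧
      ((∃ l, X.P.degreeOf l = 1) ∨ Unirational t₀ → ∀ ε : ℝ, 0 < ε → ∃ H₀ : ℕ, ∀ H : ℕ, H₀ ≤ H →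
        ({t : Fin r → ℤ | (∀ j, |t j| ≤ H) ∧
          ¬ NoAtypical (Γ : Set ℂ) (member X fun j => (t j : ℂ))}.ncard : ℝ) ≤
          ε * (2 * H + 1) ^ r) := by
  classical
  obtain ⟨d₀, hGM⟩ := exists_GM X t₀ h
  have hMA : Pool.Agent.Q170.UZ.MA (MvPolynomial.eval₂Hom Pool.Agent.Y226.rA t₀) X.F X.f X.g
      X.w := fun y hy hy0 b hb j l j' l' hjl hjl' h1 h2 =>
    hI.interior y hy hy0 j l j' l' hjl hjl' ⟨b, hb, h1⟩ ⟨b, hb, h2⟩
  have hMB : Pool.Agent.Q170.UZ.MB (MvPolynomial.eval₂Hom Pool.Agent.Y226.rA t₀) X.F X.f X.g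
      X.w := fun c a hc y hy hya _ b hb j l hjl hja hla h1 =>
    hI.boundary a c hc y hy hya j l hjl hja hla ⟨b, hb, h1⟩
  constructor
  · obtain ⟨Q₁, E₁, hE₁, h₁⟩ := Pool.Agent.Q170.UZ.crit3 n r κ d₀ X.F t₀ X.P h.ne
      (fun f => (h.generic f).1) hGM X.f X.g h.num h.den X.w h.pole hMA hMB
    refine ⟨Q₁, E₁, hE₁, fun B₁ => ?_⟩
    obtain ⟨Q₂, E₂, hE₂, h₂⟩ := h₁ B₁
    refine ⟨Q₂, E₂, hE₂, fun B₂ => ?_⟩
    obtain ⟨Q₃, E₃, hE₃, h₃⟩ := h₂ B₂
    refine ⟨Q₃, E₃, hE₃, fun Γ t k₁ k₂ k₃ => ?_⟩
    obtain ⟨B₃, k₃⟩ := k₃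
    rw [member_eq]
    exact noAtypical_of (h₃ B₃ Γ t (near_of k₁) (near_of k₂) (near_of k₃))
  intro Γ hΓ
  constructor
  · obtain ⟨M, a, hM, hMa⟩ := Pool.Agent.Q170.UZ.class_all n r κ d₀ X.F t₀ X.P
      h.ne h.generic hGM X.f X.g h.num h.den X.w h.pole hMA hMB Γ hΓ
    refine ⟨M, a, hM, fun t ht htP => ?_⟩
    rw [member_eq]
    exact noAtypical_of (hMa t ht htP)
  · intro hP ε hε
    have hcount : ∃ H₀ : ℕ, ∀ H : ℕ, H₀ ≤ H → (({t : Fin r → ℤ | (∀ j, |t j| ≤ H) ∧
        ¬ Pool.Agent.Q170.UZ.NoAt (Γ : Set ℂ) (Pool.Agent.Q170.FP.memH X.F X.f X.g X.P X.w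
          (fun j => (t j : ℂ)))}.ncard : ℕ) : ℝ) ≤ ε * (2 * H + 1) ^ r := by
      rcases hP with ⟨l, hl⟩ | ⟨s, a, b, hs, hb, hab⟩
      · exact Pool.Agent.Q170.UZ.count_lin n r κ d₀ X.F t₀ X.P h.ne h.generic hGM X.f X.g h.num
          h.den X.w h.pole hMA hMB Γ hΓ l hl ε hε
      · exact Pool.Agent.Q170.UZ.count_uni n r κ d₀ X.F t₀ X.P h.ne h.generic hGM X.f X.g h.num
          h.den X.w h.pole hMA hMB Γ hΓ s a b hs hb hab ε hε
    obtain ⟨H₀, hH₀⟩ := hcount
    refine ⟨H₀, fun H hH => le_trans ?_ (hH₀ H hH)⟩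
    rw [Nat.cast_le]
    refine Set.ncard_le_ncard ?_ ((Finset.finite_toSet
      (Pool.Agent.Q170.ZP.Count.box r H)).subset ?_)
    · rintro t ⟨ht, hbad⟩
      refine ⟨ht, fun hz => hbad ?_⟩
      rw [member_eq]
      exact noAtypical_of hz
    · rintro t ⟨ht, -⟩
      exact Finset.mem_coe.2 (Pool.Agent.Q170.ZP.Count.mem_box.2 ht)

end Pool.Agent.Results.MP_d83ecd_ag.NoAtypicalMembers
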