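import Pool.Agent.Q170.UV.Fin

/-!
# MP_d83ecd_ag: the number of the atypical points of the members of a family of curves in `Y(1)^n`

`Y(1)^n` is identified with `ℂ^n` by the elliptic modular function `jj = j = E₄³ / Δ`. A special
subvariety of `Y(1)^n` of dimension `r` is given by a `SpecialVariety`: its points are the points
`x` with `x_i = const_i` for the constant coordinates, and `x_i = j (g_i z_l)` for the coordinates of
class `l`, `z_1, …, z_r` free in the upper half plane and `g_i` a fixed integral matrix of positive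
determinant. In the definition of special subvarieties the constants are values of `j` at CM points.
We allow also all constants which are integral over the ring generated by a given set `Γ`. A point of
a curve `S` is called *atypical* (`Atypical Γ S x`) if it lies on such a special subvariety of
codimension at least two. The Zilber-Pink conjecture for a curve which is not contained in a proper
special subvariety says that there are only finitely many atypical points.

**Families of curves** (the same as in `NoAtypicalMembers` and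
`MP_e573c6_ag.OneDegenerateHypersurface`). Let `F_k` be finitely many forms in the homogeneous
coordinates `(X_1, Z_1), …, (X_n, Z_n)` of `(P¹)^n` (the variables are `(i, false) = X_i` and
`(i, true) = Z_i`, and `x_i = X_i / Z_i`), whose coefficients are polynomials in `r` parameters
`t = (t_1, …, t_r)` over the field `Q̄` of the algebraic numbers. They define an algebraic family of
subschemes `V_t` of `(P¹)^n`. Let `f_i`, `g_i`, `P ∈ Q̄[t]` and `w_i > 0`, and let `X_t ⊂ Y(1)^n` be
the set of all `x` with `x_i = f_i (t) / (P (t) ^ w_i g_i (t)) * y_i`, `y ∈ V_t ∩ ℂ^n` (`member`).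

Let `P = 0` be an irreducible hypersurface of the parameter space and let `t₀ ∈ ℂ^r` be a generic
point of it: `h (t₀) = 0` for `h ∈ Q̄[t]` if and only if `P` divides `h`. So `X_t` tends to the cusp
`(∞, …, ∞)` if `t` tends to a generic point of this hypersurface. We assume that the curve `V_{t₀}` is
integral and in general position (`DegeneratesAt X t₀`):

* the ideals in `ℂ[x]` of `V_{t₀}` in the affine charts `Z_1 = … = Z_n = 1` and
  `X_a = 1`, `Z_i = 1` for `i ≠ a` are prime ideals; the coordinates `x_i` are not constant on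
  `V_{t₀}`;
* for `i ≠ j` the ideal generated by the `F_k` contains a form
  `∑_{u ≤ a, v ≤ b} g_{uv} X_i ^ u Z_i ^ (a - u) X_j ^ v Z_j ^ (b - v)`, where the `g_{uv}` are
  polynomials in `t` with `g_{00}, g_{a0}, g_{0b}, g_{ab} ≠ 0` at `t₀`, and where the form at `t₀` is
  not divisible by a form `X_i - c Z_i`. So the zeros and poles of `x_i` on `V_{t₀}` are
  different from those of `x_j`;
* `f_i (t₀) ≠ 0`, `g_i (t₀) ≠ 0`.

There is no other condition on the family: the members may have atypical points.

**The generic member.** Let `τ ∈ ℂ^r` be a generic point of the parameter space: its coordinates are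
algebraically independent over `Q̄` (`Generic τ`). For the generic member `X_τ` we allow all constants
which are integral over the ring `Q̄[τ]` (`constants τ`). A point `x ∈ X_t` is a *specialization* of
`x' ∈ X_τ` (`Specializes τ x' t x`) if `h (t, x) = 0` for all polynomials `h` over `Q̄` with
`h (τ, x') = 0`.

**Theorem.** Let `X` be such a family and `τ` a generic point.

1. The generic member `X_τ` has only finitely many atypical points. Let `𝒳` be the set of these
points and `N` their number.

2. There are a finite set `Γ₀` of algebraic numbers and a polynomial `Z ≠ 0` over `Q̄`, such that for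
all `t ∈ ℤ^r` with `Z (t) ≠ 0` each `x' ∈ 𝒳` has a specialization `x ∈ X_t` which is an atypical point
(constants singular moduli or integral over `ℤ[Γ₀]`), and `X_t` has at least `N` atypical points.

3. Suppose that `P` has degree one in one of the variables, or that the hypersurface `P = 0` is
unirational over `Q̄` (`Unirational t₀`: the coordinates of `t₀` are rational functions of `r - 1`
algebraically independent numbers). This is no condition for `r = 1`. Let `Γ` be a finite set of
algebraic numbers and `ε > 0`. There is `H₀` such that for all `H ≥ H₀` and all `t ∈ ℤ^r` with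
`|t_j| ≤ H`, with at most `ε (2 H + 1) ^ r` exceptions: each proper special subvariety contains only
finitely many points of `X_t`; each atypical point of `X_t` (constants singular moduli or integral
over `ℤ[Γ]`) is a specialization of an atypical point of the generic member; there are at most `N`
atypical points on `X_t`, and exactly `N` if `Γ` contains `Γ₀`.

4. (Zero-one law.) The following are equivalent, if `P` is as in 3: (a) the generic member has no
atypical point; (b) for all finite sets `Γ` of algebraic numbers one hundred percent of the members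
`X_t`, `t ∈ ℤ^r`, have no atypical intersections at all (`NoAtypical`). If (a) is false then
there are `Γ₀` and `Z ≠ 0` such that all members `X_t`, `t ∈ ℤ^r`, `Z (t) ≠ 0`, have atypical points.

So the number of the atypical points is the same for one hundred percent of the integral members.
For example, let `V ⊂ (P¹)^n` be an integral curve over `Q̄` in general position, `u_i ≠ 0` algebraic
numbers and `X_m = {(u_1 y_1 / m, …, u_n y_n / m) : y ∈ V}`. For one hundred percent of the integers
`m`, `X_m` has exactly `N` atypical points, where `N` is the number for `X_τ`, `τ` transcendental (if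
`Γ ⊇ Γ₀`). If `u_i = 1` for all `i` and `V` contains a point with `y_1 = y_2` and `y_3 = y_4`, then
`N ≥ 1`; the theorem says that for almost all `m` all atypical points of `X_m` are of such an
algebraic origin. With `r = 2`, `m = t_1 / t_2` we get the same for rational numbers `m`.

In `MP_e573c6_ag.OneDegenerateHypersurface` (same families) it is proved that the set of the
atypical points of one member `X_t` is finite, without a bound. In `NoAtypicalMembers` it is proved
that there are no atypical points for one hundred percent of the `t` under a multiplicative condition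
on the curve `V_{t₀}`, which implies `N = 0`. The finite set `Γ₀` is necessary in 2 and 3: if
`t / 2` is an atypical constant coordinate of a point of `X_t` (for all `t`), then it is an algebraic
integer for half of the integers `t` only.

**Proof.** (First place.) Near the hypersurface, at a place `v` with bounded residue field, each
atypical point `x` of `X_t` has at most one coordinate with `v (y_a) ≠ 0`, and the isogenies between
the other coordinates have degree at most `G₁` (uniform local theorem, `Pool.Agent.Q170.UZ`). So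
`x` satisfies a modular equation of level at most `G₁`. This system of equations has finitely many
solutions for these `t`, which are Zariski dense; so by Chevalley's theorem the coordinates of
the solutions are zeros of polynomials over `Q̄[t]` (elimination). (Second place.) At a second place,
the Newton polygons of these polynomials bound the quotients of the valuations of `x_a` and `x_l`,
and the degrees bound the residue field and the ramification, so the roots of unity in the relation
between the Tate parameters of `x_a` and `x_l`. So all isogenies have bounded degree. (Specialization.)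
The points with two isogenies of bounded degree form an algebraic family over `Q̄[t]`, its components
which dominate the parameter space give atypical points of the generic member. If one coordinate is
constant, it is a zero of an irreducible polynomial `R (t, Y)`; if its leading coefficient is
not constant, then `R (t, Y)` has no integral zero for almost all `t ∈ ℤ^r` by Hilbert's irreducibility
theorem and a place at which the leading coefficient is zero and some other coefficient is not
(`Pool.Agent.Q16.UV.ONE`). (Finiteness of `𝒳`.) The local theorem is applied near the hypersurface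
at one fixed place `v`, at points `t` with very large `v (P (t))`, to allow constants with
denominators. Semicontinuity of the number of solutions follows from the Nullstellensatz and
Chevalley's theorem.
-/

set_option autoImplicit false

namespace Pool.Agent.Results.MP_d83ecd_ag.NumberOfAtypicalPoints

open H294ZP UpperHalfPlane IsDedekindDomain NumberField

/-- A special subvariety of dimension `r` of `Y(1)^n`. The constant coordinates are those with
`cls i = none`. The allowed constants are the singular moduli and the numbers which are integral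
over the ring generated by `Γ`. -/
structure SpecialVariety (Γ : Set ℂ) (n r : ℕ) where
  cls : Fin n → Option (Fin r)
  surj : ∀ l : Fin r, ∃ i, cls i = some l
  mat : Fin n → Matrix (Fin 2) (Fin 2) ℤ
  det_pos : ∀ i, 0 < (mat i).det
  const : Fin n → ℂ
  allowed : ∀ i, (∃ τ : ℍ, IsCM τ ∧ const i = jj τ) ∨ IsIntegral (Algebra.adjoin ℤ Γ) (const i)

/-- The points of a special subvariety of `Y(1)^n`. -/
def SpecialVariety.locus {Γ : Set ℂ} {n r : ℕ} (Z : SpecialVariety Γ n r) : Set (Fin n → ℂ) :=
  {x | ∃ z : Fin r → ℍ, ∀ i, (Z.cls i = none → x i = Z.const i) ∧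
    ∀ l, Z.cls i = some l → ∃ w : ℍ,
      (w : ℂ) * (Z.mat i 1 0 * z l + Z.mat i 1 1) = Z.mat i 0 0 * z l + Z.mat i 0 1 ∧
      x i = jj w}

/-- There is no point of `S` on a special subvariety of codimension at least two, and each proper
special subvariety contains only finitely many points of `S`. -/
def NoAtypical (Γ : Set ℂ) {n : ℕ} (S : Set (Fin n → ℂ)) : Prop :=
  (∀ (r : ℕ) (Z : SpecialVariety Γ n r), r + 2 ≤ n → ∀ x ∈ S, x ∉ Z.locus) ∧
  ∀ (r : ℕ) (Z : SpecialVariety Γ n r), r < n → {x | x ∈ S ∧ x ∈ Z.locus}.Finite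

/-- `x` is a point of `S` on a special subvariety of codimension at least two. -/
def Atypical (Γ : Set ℂ) {n : ℕ} (S : Set (Fin n → ℂ)) (x : Fin n → ℂ) : Prop :=
  x ∈ S ∧ ∃ (r : ℕ) (Z : SpecialVariety Γ n r), r + 2 ≤ n ∧ x ∈ Z.locus

/-- The homogeneous coordinates of the point with affine coordinates `y` in the chart `c` of
`(P¹)^n`. In the chart `none` they are `X_i = y_i`, `Z_i = 1` for all `i`, in the chart `some a`
they are `X_a = 1`, `Z_a = y_a`, and `X_i = y_i`, `Z_i = 1` for `i ≠ a`. -/
def coord {A : Type} [CommRing A] {n : ℕ} (c : Option (Fin n)) (y : Fin n → A)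
    (q : Fin n × Bool) : A :=
  if c = some q.1 then (if q.2 then y q.1 else 1) else (if q.2 then 1 else y q.1)

/-- `F` is homogeneous in each pair of variables `(X_i, Z_i) = ((i, false), (i, true))`. -/
def Multihomogeneous {A : Type} [CommRing A] {n : ℕ} (F : MvPolynomial (Fin n × Bool) A) : Prop :=
  ∃ δ : Fin n → ℕ, ∀ m ∈ F.support, ∀ i, m (i, false) + m (i, true) = δ i

/-- The form `∑ g_{uv} X_i ^ u Z_i ^ (a - u) X_j ^ v Z_j ^ (b - v)`. -/
noncomputable def pairForm {A : Type} [CommRing A] {n : ℕ} (i j : Fin n) (a b : ℕ)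
    (g : ℕ → ℕ → A) : MvPolynomial (Fin n × Bool) A :=
  ∑ u ∈ Finset.range (a + 1), ∑ v ∈ Finset.range (b + 1),
    MvPolynomial.C (g u v) * MvPolynomial.X (i, false) ^ u * MvPolynomial.X (i, true) ^ (a - u) *
      MvPolynomial.X (j, false) ^ v * MvPolynomial.X (j, true) ^ (b - v)

/-- The value at `t ∈ ℂ^r` of a polynomial whose coefficients are algebraic numbers. -/
noncomputable def value {r : ℕ} (t : Fin r → ℂ) :
    MvPolynomial (Fin r) (algebraicClosure ℚ ℂ) →+* ℂ :=
  MvPolynomial.eval₂Hom (algebraMap (algebraicClosure ℚ ℂ) ℂ) t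

/-- The data of a family: the forms `F_τ`, the polynomials `f_i`, `g_i` and `P`, and the orders
`w_i`. -/
structure Family (n r : ℕ) (κ : Type) where
  F : κ → MvPolynomial (Fin n × Bool) (MvPolynomial (Fin r) (algebraicClosure ℚ ℂ))
  f : Fin n → MvPolynomial (Fin r) (algebraicClosure ℚ ℂ)
  g : Fin n → MvPolynomial (Fin r) (algebraicClosure ℚ ℂ)
  P : MvPolynomial (Fin r) (algebraicClosure ℚ ℂ)
  w : Fin n → ℕ

/-- The ideal of `V_t` in the chart `c`. -/
noncomputable def chartIdeal {n r : ℕ} {κ : Type} (X : Family n r κ) (t : Fin r → ℂ)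
    (c : Option (Fin n)) : Ideal (MvPolynomial (Fin n) ℂ) :=
  Ideal.span (Set.range fun k => MvPolynomial.eval₂
    (MvPolynomial.C.comp (value t)) (coord c MvPolynomial.X) (X.F k))

/-- `t₀` is a generic point of the hypersurface `P = 0`, and `V_{t₀}` is integral and in general
position. -/
structure DegeneratesAt {n r : ℕ} {κ : Type} (X : Family n r κ) (t₀ : Fin r → ℂ) : Prop where
  ne : X.P ≠ 0
  generic : ∀ h, value t₀ h = 0 ↔ X.P ∣ h
  form : ∀ k, Multihomogeneous (X.F k)
  prime : ∀ c, (chartIdeal X t₀ c).IsPrime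
  nonconstant : ∀ (i : Fin n) (c : ℂ), MvPolynomial.X i - MvPolynomial.C c ∉ chartIdeal X t₀ none
  general : ∀ i j : Fin n, i ≠ j → ∃ (a b : ℕ)
    (g : ℕ → ℕ → MvPolynomial (Fin r) (algebraicClosure ℚ ℂ)),
    value t₀ (g 0 0) ≠ 0 ∧ value t₀ (g a 0) ≠ 0 ∧ value t₀ (g 0 b) ≠ 0 ∧ value t₀ (g a b) ≠ 0 ∧
    (∀ c : ℂ, ∃ v ≤ b, ∑ u ∈ Finset.range (a + 1), value t₀ (g u v) * c ^ u ≠ 0) ∧
    pairForm i j a b g ∈ Ideal.span (Set.range X.F)
  num : ∀ i, value t₀ (X.f i) ≠ 0
  den : ∀ i, value t₀ (X.g i) ≠ 0
  pole : ∀ i, 0 < X.w i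

/-- The coordinates of `t₀` are rational functions (with algebraic coefficients) of `r - 1`
algebraically independent complex numbers `s`. -/
def Unirational {r : ℕ} (t₀ : Fin r → ℂ) : Prop :=
  ∃ (s : Fin (r - 1) → ℂ) (a : Fin r → MvPolynomial (Fin (r - 1)) (algebraicClosure ℚ ℂ))
    (b : MvPolynomial (Fin (r - 1)) (algebraicClosure ℚ ℂ)),
    (∀ h, value s h = 0 → h = 0) ∧ value s b ≠ 0 ∧ ∀ i, t₀ i = value s (a i) / value s b

/-- The member `X_t` of the family: all `x` with `x_i = f_i (t) / (P (t) ^ w_i * g_i (t)) * y_i`, `y` in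
`V_t ∩ ℂ^n`. -/
noncomputable def member {n r : ℕ} {κ : Type} (X : Family n r κ) (t : Fin r → ℂ) :
    Set (Fin n → ℂ) :=
  {x | ∃ y : Fin n → ℂ, (∀ k, MvPolynomial.eval₂ (value t) (coord none y) (X.F k) = 0) ∧
    ∀ i, x i = value t (X.f i) / (value t X.P ^ X.w i * value t (X.g i)) * y i}

/-- The coordinates of `τ` are algebraically independent over the field of the algebraic numbers. -/
def Generic {r : ℕ} (τ : Fin r → ℂ) : Prop := ∀ h, value τ h = 0 → h = 0

/-- For the generic member the constants are integral over the ring `Q̄[τ]`, which is generated by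
this set. -/
def constants {r : ℕ} (τ : Fin r → ℂ) : Set ℂ := {z | IsAlgebraic ℚ z} ∪ Set.range τ

/-- `(t, x)` is a specialization of `(τ, x')`: all polynomial equations with algebraic coefficients
which hold at `(τ, x')` hold at `(t, x)`. -/
def Specializes {r n : ℕ} (τ : Fin r → ℂ) (x' : Fin n → ℂ) (t : Fin r → ℂ) (x : Fin n → ℂ) :
    Prop :=
  ∀ h : MvPolynomial (Fin n) (MvPolynomial (Fin r) (algebraicClosure ℚ ℂ)),
    MvPolynomial.eval₂ (value τ) x' h = 0 → MvPolynomial.eval₂ (value t) x h = 0

/-- Special subvarieties in the form used in the proof. -/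
def SpecialVariety.toSV {Γ : Set ℂ} {n r : ℕ} (Z : SpecialVariety Γ n r) :
    Pool.Agent.Y226.ZM.SV Γ n r where
  cls := Z.cls
  mat := Z.mat
  det_pos := Z.det_pos
  const := Z.const
  int := fun i => by
    rcases Z.allowed i with ⟨τ, hτ, h⟩ | h
    · rw [h]
      exact (singular_modulus_integral τ hτ).tower_top
    · exact h

theorem member_eq {n r : ℕ} {κ : Type} (X : Family n r κ) (t : Fin r → ℂ) :
    member X t = Pool.Agent.Q170.FP.memH X.F X.f X.g X.P X.w t := by
  ext x
  constructor
  · rintro ⟨y, hy, hx⟩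
    exact ⟨y, hy, hx⟩
  · rintro ⟨y, hy, hx⟩
    exact ⟨y, hy, hx⟩

theorem exists_GM {n r : ℕ} {κ : Type} (X : Family n r κ) (t₀ : Fin r → ℂ)
    (h : DegeneratesAt X t₀) : ∃ d₀ : ℕ, Pool.Agent.Y92.ZX.GM d₀
      (MvPolynomial.eval₂Hom Pool.Agent.Y226.rA t₀) X.F := by
  classical
  have hgen : ∀ q : Fin n × Fin n, ∃ (a b : ℕ)
      (g : ℕ → ℕ → MvPolynomial (Fin r) (algebraicClosure ℚ ℂ)), q.1 ≠ q.2 →
      value t₀ (g 0 0) ≠ 0 ∧ value t₀ (g a 0) ≠ 0 ∧ value t₀ (g 0 b) ≠ 0 ∧
      value t₀ (g a b) ≠ 0 ∧
      (∀ c : ℂ, ∃ v ≤ b, ∑ u ∈ Finset.range (a + 1), value t₀ (g u v) * c ^ u ≠ 0) ∧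
      pairForm q.1 q.2 a b g ∈ Ideal.span (Set.range X.F) := by
    intro q
    by_cases hq : q.1 = q.2
    · exact ⟨0, 0, 0, fun h' => absurd hq h'⟩
    · obtain ⟨a, b, g, h1⟩ := h.general q.1 q.2 hq
      exact ⟨a, b, g, fun _ => h1⟩
  choose a b g hg using hgen
  refine ⟨∑ q, (a q + b q), h.form, h.prime, h.nonconstant, fun i j hij => ?_⟩
  obtain ⟨h1, h2, h3, h4, h5, h6⟩ := hg (i, j) hij
  have h7 : a (i, j) + b (i, j) ≤ ∑ q, (a q + b q) :=
    Finset.single_le_sum (f := fun q => a q + b q) (fun _ _ => Nat.zero_le _)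
      (Finset.mem_univ (i, j))
  exact ⟨a (i, j), b (i, j), g (i, j), by omega, by omega, h1, h2, h3, h4, h5, h6⟩

/-- A point on a special subvariety in the sense of the proof is on one with nonempty classes. -/
theorem exists_surj {Γ : Set ℂ} {n r : ℕ} (Z : Pool.Agent.Y226.ZM.SV Γ n r) {x : Fin n → ℂ}
    (hx : x ∈ Z.locus) : ∃ (k : ℕ) (Z' : SpecialVariety Γ n k), k ≤ r ∧ x ∈ Z'.locus := by
  classical
  let S : Finset (Fin r) := Finset.univ.filter fun l => ∃ i, Z.cls i = some l
  have hS : ∀ {i l}, Z.cls i = some l → l ∈ S := fun {i l} h =>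
    Finset.mem_filter.2 ⟨Finset.mem_univ _, i, h⟩
  let e := S.equivFin
  let c : Fin n → Option (Fin S.card) := fun i =>
    if h : ∃ l, Z.cls i = some l then some (e ⟨h.choose, hS h.choose_spec⟩) else none
  have hc1 : ∀ i l (h : Z.cls i = some l), c i = some (e ⟨l, hS h⟩) := by
    intro i l h
    have h1 : ∃ l, Z.cls i = some l := ⟨l, h⟩
    have h2 : h1.choose = l := Option.some_injective _ (h1.choose_spec.symm.trans h)
    have h3 : c i = some (e ⟨h1.choose, hS h1.choose_spec⟩) := dif_pos h1
    rw [h3]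
    congr 2
    exact Subtype.ext h2
  have hc2 : ∀ i, c i = none → Z.cls i = none := by
    intro i h
    by_contra h1
    obtain ⟨l, hl⟩ := Option.ne_none_iff_exists'.1 h1
    rw [hc1 i l hl] at h
    exact absurd h (Option.some_ne_none _)
  have hc3 : ∀ i l, c i = some l → Z.cls i = some (e.symm l).1 := by
    intro i l h
    have h1 : Z.cls i ≠ none := by
      intro h0
      have h2 : c i = none := dif_neg (by rintro ⟨l', hl'⟩; rw [h0] at hl'; exact absurd hl' (by simp))
      rw [h2] at h
      exact absurd h (by simp)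
    obtain ⟨l', hl'⟩ := Option.ne_none_iff_exists'.1 h1
    have h2 := (hc1 i l' hl').symm.trans h
    have h3 : l = e ⟨l', hS hl'⟩ := (Option.some_injective _ h2).symm
    rw [h3, Equiv.symm_apply_apply, hl']
  refine ⟨S.card, ⟨c, fun l => ?_, Z.mat, Z.det_pos, Z.const, fun i => Or.inr (Z.int i)⟩, ?_, ?_⟩
  · obtain ⟨i, hi⟩ := (Finset.mem_filter.1 (e.symm l).2).2
    refine ⟨i, ?_⟩
    rw [hc1 i _ hi]
    congr 1
    exact e.apply_symm_apply l
  · exact (Finset.card_le_univ S).trans (by simp)
  · obtain ⟨z, hz⟩ := hx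
    refine ⟨fun l => z (e.symm l).1, fun i => ⟨fun hi => (hz i).1 (hc2 i hi), fun l hl => ?_⟩⟩
    exact (hz i).2 _ (hc3 i l hl)

theorem atypical_iff {Γ : Set ℂ} {n : ℕ} {S : Set (Fin n → ℂ)} {x : Fin n → ℂ} :
    Atypical Γ S x ↔ Pool.Agent.Q170.UV.Atp Γ S x := by
  constructor
  · rintro ⟨h, r, Z, hr, hZ⟩
    exact ⟨h, r, Z.toSV, hr, hZ⟩
  · rintro ⟨h, r, Z, hr, hZ⟩
    obtain ⟨k, Z', hk, hZ'⟩ := exists_surj Z hZ
    exact ⟨h, k, Z', by omega, hZ'⟩

/-- The number of the atypical points of the members of a family of curves in `Y(1)^n` with one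
degenerate hypersurface. -/
theorem result {n r : ℕ} {κ : Type} [Finite κ] (X : Family n r κ) (t₀ : Fin r → ℂ)
    (h : DegeneratesAt X t₀) (τ : Fin r → ℂ) (hτ : Generic τ) :
    ∃ (𝒳 : Finset (Fin n → ℂ)) (Γ₀ : Finset ℂ)
      (Z : MvPolynomial (Fin r) (algebraicClosure ℚ ℂ)),
      (∀ x, x ∈ 𝒳 ↔ Atypical (constants τ) (member X τ) x) ∧
      (∀ γ ∈ Γ₀, IsAlgebraic ℚ γ) ∧ Z ≠ 0 ∧
      (∀ t : Fin r → ℤ, value (fun j => (t j : ℂ)) Z ≠ 0 →
        (∀ x' ∈ 𝒳, ∃ x, Atypical (Γ₀ : Set ℂ) (member X fun j => (t j : ℂ)) x ∧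
          Specializes τ x' (fun j => (t j : ℂ)) x) ∧
        ∃ T : Finset (Fin n → ℂ), T.card = 𝒳.card ∧
          ∀ x ∈ T, Atypical (Γ₀ : Set ℂ) (member X fun j => (t j : ℂ)) x) ∧
      ((∃ l, X.P.degreeOf l = 1) ∨ Unirational t₀ →
        (∀ Γ : Finset ℂ, (∀ γ ∈ Γ, IsAlgebraic ℚ γ) → ∀ ε : ℝ, 0 < ε → ∃ H₀ : ℕ, ∀ H : ℕ, H₀ ≤ H →
          ({t : Fin r → ℤ | (∀ j, |t j| ≤ H) ∧
            ¬ ((∀ (r' : ℕ) (Z : SpecialVariety (Γ : Set ℂ) n r'), r' < n →
                {x | x ∈ member X (fun j => (t j : ℂ)) ∧ x ∈ Z.locus}.Finite) ∧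
              (∀ x, Atypical (Γ : Set ℂ) (member X fun j => (t j : ℂ)) x →
                ∃ x' ∈ 𝒳, Specializes τ x' (fun j => (t j : ℂ)) x) ∧
              {x | Atypical (Γ : Set ℂ) (member X fun j => (t j : ℂ)) x}.Finite ∧
              {x | Atypical (Γ : Set ℂ) (member X fun j => (t j : ℂ)) x}.ncard ≤ 𝒳.card ∧
              (Γ₀ ⊆ Γ → {x | Atypical (Γ : Set ℂ) (member X fun j => (t j : ℂ)) x}.ncard =
                𝒳.card))}.ncard : ℝ) ≤ ε * (2 * H + 1) ^ r) ∧
        ((∀ x, ¬ Atypical (constants τ) (member X τ) x) ↔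
          ∀ Γ : Finset ℂ, (∀ γ ∈ Γ, IsAlgebraic ℚ γ) → ∀ ε : ℝ, 0 < ε → ∃ H₀ : ℕ, ∀ H : ℕ, H₀ ≤ H →
          ({t : Fin r → ℤ | (∀ j, |t j| ≤ H) ∧
            ¬ NoAtypical (Γ : Set ℂ) (member X fun j => (t j : ℂ))}.ncard : ℝ) ≤
            ε * (2 * H + 1) ^ r)) := by
  classical
  obtain ⟨d₀, hGM⟩ := exists_GM X t₀ h
  obtain ⟨𝒳, Γ₀, Z, h1, h2, h3, h4, h5⟩ := Pool.Agent.Q170.UV.final n r κ d₀ X.F t₀ X.P h.ne
    h.generic hGM X.f X.g h.num h.den X.w h.pole τ hτ
  have hgood : (∃ l, X.P.degreeOf l = 1) ∨ Unirational t₀ →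
      ∀ Γ : Finset ℂ, (∀ γ ∈ Γ, IsAlgebraic ℚ γ) → ∀ ε : ℝ, 0 < ε → ∃ H₀ : ℕ, ∀ H : ℕ, H₀ ≤ H →
        ({t : Fin r → ℤ | (∀ j, |t j| ≤ H) ∧
          ¬ ((∀ (r' : ℕ) (Z : SpecialVariety (Γ : Set ℂ) n r'), r' < n →
              {x | x ∈ member X (fun j => (t j : ℂ)) ∧ x ∈ Z.locus}.Finite) ∧
            (∀ x, Atypical (Γ : Set ℂ) (member X fun j => (t j : ℂ)) x →
              ∃ x' ∈ 𝒳, Specializes τ x' (fun j => (t j : ℂ)) x) ∧
            {x | Atypical (Γ : Set ℂ) (member X fun j => (t j : ℂ)) x}.Finite ∧
            {x | Atypical (Γ : Set ℂ) (member X fun j => (t j : ℂ)) x}.ncard ≤ 𝒳.card ∧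
            (Γ₀ ⊆ Γ → {x | Atypical (Γ : Set ℂ) (member X fun j => (t j : ℂ)) x}.ncard =
              𝒳.card))}.ncard : ℝ) ≤ ε * (2 * H + 1) ^ r := by
    intro hP Γ hΓ ε hε
    obtain ⟨H₀, hH₀⟩ := h5 hP Γ hΓ ε hε
    refine ⟨H₀, fun H hH => le_trans ?_ (hH₀ H hH)⟩
    rw [Nat.cast_le]
    refine Set.ncard_le_ncard ?_ (Pool.Agent.Q170.UV.box_fin H _)
    rintro t ⟨ht, hbad⟩
    refine ⟨ht, fun hz => hbad ?_⟩
    obtain ⟨e1, e2, e3, e4, e5⟩ := hz
    simp only [atypical_iff, member_eq]
    exact ⟨fun r' Z hr => (e1 r' Z.toSV hr).subset fun _ hx => hx, e2, e3, e4, e5⟩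
  refine ⟨𝒳, Γ₀, Z, ?_, h2, h3, ?_, fun hP => ⟨hgood hP, ?_, ?_⟩⟩
  · intro x
    rw [atypical_iff, member_eq]
    exact h1 x
  · intro t ht
    simp only [atypical_iff, member_eq]
    exact h4 t ht
  · intro hno Γ hΓ ε hε
    obtain ⟨H₀, hH₀⟩ := hgood hP Γ hΓ ε hε
    refine ⟨H₀, fun H hH => le_trans ?_ (hH₀ H hH)⟩
    rw [Nat.cast_le]
    refine Set.ncard_le_ncard ?_ (Pool.Agent.Q170.UV.box_fin H _)
    rintro t ⟨ht, hbad⟩
    refine ⟨ht, fun hz => hbad ⟨fun r' Z' hr x hx hxZ => ?_, hz.1⟩⟩
    obtain ⟨x', hx', -⟩ := hz.2.1 x ⟨hx, r', Z', hr, hxZ⟩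
    refine hno x' ?_
    rw [atypical_iff, member_eq]
    exact (h1 x').1 hx'
  · intro hall x hx
    rw [atypical_iff, member_eq] at hx
    have hg0 : ∀ i, X.g i ≠ 0 := by
      intro i h0
      apply h.den i
      rw [h0, map_zero]
    refine Pool.Agent.Q170.UV.zero_one (Pool.Agent.Q38.UV.t_SPE Pool.Agent.Q92.UV.t_CHEV)
      Pool.Agent.Q38.UV.t_ING Pool.Agent.Q38.UV.t_INS Pool.Agent.Q285.UV.t_SVC n r κ X.F X.P h.ne
      X.f X.g hg0 X.w τ hτ ?_ x hx
    intro Γ hΓ
    obtain ⟨H₀, hH₀⟩ := hall Γ hΓ (1 / 2) (by norm_num)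
    refine ⟨H₀, fun H hH => le_trans ?_ (hH₀ H hH)⟩
    rw [Nat.cast_le]
    refine Set.ncard_le_ncard ?_ (Pool.Agent.Q170.UV.box_fin H _)
    rintro t ⟨ht, x, hx⟩
    refine ⟨ht, fun hz => ?_⟩
    rw [← member_eq, ← atypical_iff] at hx
    obtain ⟨hx1, r', Z', hr, hZ'⟩ := hx
    exact hz.1 r' Z' hr x hx1 hZ'

end Pool.Agent.Results.MP_d83ecd_ag.NumberOfAtypicalPoints
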