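import Pool.Agent.Q170.PO.Px12

/-!
# MP_d83ecd_ag: no atypical intersections at all for one hundred percent of the rational curves in
`Y(1)^n` with prescribed poles

`Y(1)^n` is identified with `ℂ^n` by the elliptic modular function `jj = j = E₄³ / Δ`. A special
subvariety of `Y(1)^n` of dimension `r` is given by a `SpecialVariety`: its points are the points
`x` with `x_i = const_i` for the constant coordinates, and `x_i = j (g_i z_l)` for the coordinates of
class `l`, `z_1, …, z_r` free in the upper half plane and `g_i` a fixed integral matrix of positive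
determinant. In the definition of special subvarieties the constants are values of `j` at CM points.
We allow also all constants which are integral over the ring generated by a given set `Γ`.

**No atypical intersections.** `NoAtypical Γ S`: there is *no point at all* of `S` on a special
subvariety of codimension at least two, and each proper special subvariety contains only finitely
many points of `S`. So a curve `S` with this property has no atypical subvariety: the Zilber-Pink
conjecture holds for `S` with the empty set of exceptions.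

**Rational curves with prescribed poles.** Let `n`, `d ≥ 1` and let `g_1, …, g_n` be fixed nonzero
polynomials of degree at most `d` over `ℤ`. We consider the rational curves
`x_i = f_i (s) / (m g_i (s))`, `i = 1, …, n`, where `f_1, …, f_n` are *arbitrary* polynomials of degree
at most `d` over `ℤ`, given by their `n (d + 1)` coefficients `a`, and `m` is an integer: these are
all maps from the projective line over `ℚ` to `(P¹)^n` such that the divisor of the poles of `x_i` is
at most the divisor `D_i` of degree `d` defined by `g_i` (with the point `s = ∞` of multiplicity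
`d - deg g_i`). The set `curve m a g` is the curve in `Y(1)^n`: the set of all points
`(F_i (s, t) / (m G_i (s, t)))_i`, `(s, t) ≠ (0, 0)`, `G_i (s, t) ≠ 0` for all `i`, where `F_i`, `G_i` are
the binary forms of degree `d` which belong to `f_i`, `g_i`; the point `s = ∞` is included.

The condition on the poles (`Admissible d g`): *at each point `P` of the projective line the
multiplicity of `P` in `D_1, …, D_n` is the same, with at most one exception* `D_a`, `a = a (P)`.
Examples:
* polynomial curves, `g_1 = … = g_n = 1`: `x_i = f_i (s) / m` with a common pole at `∞`;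
* common denominators `g_1 = … = g_n`;
* divisors `D_1, …, D_n` with disjoint supports, for instance `g_i = (s - c_i) ^ d` with different `c_i`
  (at each point at most one coordinate has a pole);
* all the coordinates except `x_n` have common poles: `g_1 = … = g_{n-1} = 1`, `g_n` arbitrary. If for
  instance `deg g_n = d`, the only cusp on the closure of the curve at which `x_1, …, x_{n-1}` have
  poles is `(∞, …, ∞, c)` with `c` finite.

**Theorem.** Let `g_1, …, g_n` be as above.

1. (Three primes.) There are `Q₁` and a polynomial `E₁ ≠ 0` over `ℤ` in the `n (d + 1)` coefficients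
`a`, such that for all `B₁` there are `Q₂` and `E₂ ≠ 0` such that for all `B₂` there are `Q₃` and
`E₃ ≠ 0` with the following property. Let `Γ` be a set of algebraic numbers, `m ≠ 0` and `a` integers
and suppose that for `ν = 1, 2, 3` there is a prime number `p_ν > Q_ν` which divides `m` and does not
divide `E_ν (a)`, such that the elements of `Γ` are integral at a place above `p_ν`, and `p_1 ≤ B_1`,
`p_2 ≤ B_2`. Then the curve has no atypical intersections.

2. (Residue classes.) Let `Γ` be a finite set of algebraic numbers. There are `M ≥ 1` and `b` such that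
the curve has no atypical intersections for all `m ≠ 0` which are divisible by `M` and all `a ≡ b`
modulo `M`.

3. (One hundred percent.) Let `Γ` be a finite set of algebraic numbers. For every `ε > 0` there is `H₀`
such that for all `H ≥ H₀`, the curve has no atypical intersections for all `(m, a)` in the box
`|m| ≤ H`, `|a_ik| ≤ H`, with at most `ε (2 H + 1) ^ (1 + n (d + 1))` exceptions (`m = 0` is counted as
an exception).

So one hundred percent of these curves contain no special point, no point with two singular
moduli among its coordinates, no point with a singular modulus and an isogeny between two other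
coordinates, and no point with two isogenies between its coordinates.

**Relation to earlier work.** Daw and Orr proved that a curve over `Q̄` in `Y(1)^n` which is not
contained in a proper special subvariety and whose closure passes through the cusp `(∞, …, ∞)` has
only finitely many points on special subvarieties of codimension at least two (Papas extended this
to some points of the boundary whose finite coordinates are singular moduli); Habegger and Pila
proved the finiteness for asymmetric curves. These theorems give the finiteness for some of the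
curves here (for instance the polynomial curves), but not the absence of atypical points, no other
constants than singular moduli, and they do not apply for instance if a coordinate has an arbitrary
finite value at the common pole of the other coordinates. The results on this row for almost
all members of families (`NoAtypicalMembers`, `ScaledImages`, `RationalParameters`, and
`MP_130685_nt.RandomRationalCurves` with random numerators and random denominators) are for curves in
general position: *no two coordinates have a common pole*. So already for polynomial curves (one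
hundred percent of the curves `x_i = f_i (s) / m`) the theorem is new.

**Proof.** Let `p` be a prime number which divides `m` and does not divide `E (a)`: then the `f_i` are
in general position modulo `p` and prime to the `g_i`, and the multiplicative relations
`(f_l g_j) ^ M = (f_j g_l) ^ M` modulo `p` between the coordinates are as independent as possible
(`GoodQ`, `NoRelQ` in `Pool.Agent.Q170.PO.St2`). Let `s` be a parameter of an atypical point `x`, in
an algebraic closure of `ℚ_p`. If `s` is near a common pole modulo `p`, we write `g_i = π^k H_i` for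
the coordinates `i ≠ a`: all the `x_i`, `i ≠ a`, have the same absolute value `> 1`, however
near `s` is to the pole. If two of them are isogenous, their Tate parameters satisfy
`q_l = ζ q_j` with a root of unity `ζ`, and the first two terms of the expansion
`q x = 1 + 744 / x + …` give a relation
`F_l (s) / F_j (s) * ζ = 1 + 744 * z * (1 / x_l - 1 / x_j) + O (p ^ 2)`, where `F_i = f_i / H_i`.
The wild part of `ζ` is bounded by a comparison of two such relations or of a
relation with an isogeny to the exceptional coordinate (Wronskian, `no_wild`, `c2`, `c3`), using that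
`s` is congruent modulo a power of `p` to a point at which the rational function `F_l / F_j` takes
values in an unramified ring. The prime-to-`p` part is bounded since the residue class of `s`
belongs to a finite field of bounded degree: it is a zero of an explicit polynomial obtained from the
Frobenius (two relations modulo `p ^ 2`, `tame2`), a zero of `f_a` or a common pole (one exceptional
coordinate). So the degrees of the isogenies are bounded in terms of `p`, `d`
(`Pool.Agent.Q170.PO.PT2.local0`, `local1`, `Chart.pc`), the information at one prime. If the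
second and the third prime are large in terms of this bound, a combinatorial argument gives that
there is no atypical point. The density follows from the divergence of the sum of the reciprocals
of the primes.
-/

set_option autoImplicit false

namespace Pool.Agent.Results.MP_d83ecd_ag.PrescribedPoles

open H294ZP UpperHalfPlane Polynomial

/-- A special subvariety of dimension `r` of `Y(1)^n`. The constant coordinates are those with
`cls i = none`. The allowed constants are the singular moduli and the numbers which are integral
over the ring generated by `Γ`. -/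
structure SpecialVariety (Γ : Set ℂ) (n r : ℕ) where
  cls : Fin n → Option (Fin r)
  surj : ∀ l : Fin r, ∃ i, cls i = some l
  mat : Fin n → Matrix (Fin 2) (Fin 2) ℤ
  det_pos : ∀ i, 0 < (mat i).det
  const : Fin n → ℂ
  allowed : ∀ i, (∃ τ : ℍ, IsCM τ ∧ const i = jj τ) ∨ IsIntegral (Algebra.adjoin ℤ Γ) (const i)

/-- The points of a special subvariety of `Y(1)^n`. -/
def SpecialVariety.locus {Γ : Set ℂ} {n r : ℕ} (Z : SpecialVariety Γ n r) : Set (Fin n → ℂ) :=
  {x | ∃ z : Fin r → ℍ, ∀ i, (Z.cls i = none → x i = Z.const i) ∧
    ∀ l, Z.cls i = some l → ∃ w : ℍ,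
      (w : ℂ) * (Z.mat i 1 0 * z l + Z.mat i 1 1) = Z.mat i 0 0 * z l + Z.mat i 0 1 ∧
      x i = jj w}

/-- There is no point of `S` on a special subvariety of codimension at least two, and each proper
special subvariety contains only finitely many points of `S`. -/
def NoAtypical (Γ : Set ℂ) {n : ℕ} (S : Set (Fin n → ℂ)) : Prop :=
  (∀ (r : ℕ) (Z : SpecialVariety Γ n r), r + 2 ≤ n → ∀ x ∈ S, x ∉ Z.locus) ∧
  ∀ (r : ℕ) (Z : SpecialVariety Γ n r), r < n → {x | x ∈ S ∧ x ∈ Z.locus}.Finite

/-- The value at `(s, t)` of the binary form of degree `d` with the coefficients `c`: the coefficient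
of `s ^ k t ^ (d - k)` is `c k`. -/
noncomputable def form {d : ℕ} (c : Fin (d + 1) → ℤ) (s t : ℂ) : ℂ :=
  ∑ k : Fin (d + 1), (c k : ℂ) * s ^ (k : ℕ) * t ^ (d - (k : ℕ))

/-- The coefficients of a polynomial of degree at most `d`. -/
noncomputable def coeffs (d : ℕ) (P : ℤ[X]) : Fin (d + 1) → ℤ := fun k => P.coeff k

/-- The rational curve in `Y(1)^n` with the parametrization `x_i = F_i (s, t) / (m G_i (s, t))`,
`(s : t) ∈ P¹`, where `F_i` is the form with the coefficients `a_i` and `G_i` the form of degree `d` of
the polynomial `g_i`. -/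
def curve {n d : ℕ} (m : ℤ) (a : Fin n → Fin (d + 1) → ℤ) (g : Fin n → ℤ[X]) :
    Set (Fin n → ℂ) :=
  {x | ∃ s t : ℂ, (s ≠ 0 ∨ t ≠ 0) ∧ (∀ i, form (coeffs d (g i)) s t ≠ 0) ∧
    ∀ i, x i = form (a i) s t / (m * form (coeffs d (g i)) s t)}

/-- The multiplicity of a point of the projective line (`none` is the point `∞`) in the divisor of
degree `d` defined by a polynomial of degree at most `d`. -/
noncomputable def multiplicity (d : ℕ) (P : ℤ[X]) : Option ℂ → ℕ
  | some ρ => (P.map (Int.castRingHom ℂ)).rootMultiplicity ρ
  | none => d - P.natDegree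

/-- The condition on the poles: at each point of the projective line the multiplicities of the poles
agree, with at most one exception. -/
structure Admissible (d : ℕ) {n : ℕ} (g : Fin n → ℤ[X]) : Prop where
  ne : ∀ i, g i ≠ 0
  degree : ∀ i, (g i).natDegree ≤ d
  poles : ∀ P : Option ℂ, ∃ (a : Fin n) (k : ℕ), ∀ i, i ≠ a → multiplicity d (g i) P = k

/-- The elements of `Γ` are algebraic numbers, and they are integral at a place above the prime
number `p`: there are a complete algebraically closed extension `C` of `ℚ_p` and an embedding `φ` of the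
field of the algebraic numbers into `C`, such that `φ γ` is integral for all `γ ∈ Γ`. -/
def IntegralAbove (Γ : Set ℂ) (p : ℕ) : Prop :=
  ∃ (C : Type) (_ : NormedField C) (_ : IsUltrametricDist C) (_ : CompleteSpace C)
    (_ : CharZero C) (_ : IsAlgClosed C) (φ : algebraicClosure ℚ ℂ →+* C),
    ‖(p : C)‖ = (p : ℝ)⁻¹ ∧
    ∀ γ ∈ Γ, ∃ c : algebraicClosure ℚ ℂ, (c : ℂ) = γ ∧ ‖φ c‖ ≤ 1

/-- The prime number `p > Q` divides `m` and does not divide `E (a)`, and `Γ` is integral above `p`. -/
def GoodPrime {n d : ℕ} (E : MvPolynomial (Fin n × Fin (d + 1)) ℤ) (Q : ℕ) (Γ : Set ℂ) (m : ℤ)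
    (a : Fin n → Fin (d + 1) → ℤ) (p : ℕ) : Prop :=
  p.Prime ∧ Q < p ∧ (p : ℤ) ∣ m ∧ ¬ (p : ℤ) ∣ MvPolynomial.eval (fun q => a q.1 q.2) E ∧
    IntegralAbove Γ p

/-- Special subvarieties in the form used in the proof. -/
def SpecialVariety.toSV {Γ : Set ℂ} {n r : ℕ} (Z : SpecialVariety Γ n r) :
    Pool.Agent.Y226.ZM.SV Γ n r where
  cls := Z.cls
  mat := Z.mat
  det_pos := Z.det_pos
  const := Z.const
  int := fun i => by
    rcases Z.allowed i with ⟨τ, hτ, h⟩ | h
    · rw [h]
      exact (singular_modulus_integral τ hτ).tower_top
    · exact h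

theorem noAtypical_of {Γ : Set ℂ} {n : ℕ} {S : Set (Fin n → ℂ)}
    (h : Pool.Agent.Q170.UZ.NoAt Γ S) : NoAtypical Γ S :=
  ⟨fun r Z hr x hx hZ => h.1 r Z.toSV hr x hx hZ,
    fun r Z hr => (h.2 r Z.toSV hr).subset fun _ hx => hx⟩

theorem form_eq {d : ℕ} (c : Fin (d + 1) → ℤ) (s t : ℂ) :
    form c s t = Pool.Agent.Q170.PO.hfm d (Pool.Agent.Q170.PO.pol c) s t := by
  unfold form Pool.Agent.Q170.PO.hfm
  rw [← Fin.sum_univ_eq_sum_range
    (fun k => ((Pool.Agent.Q170.PO.pol c).coeff k : ℂ) * s ^ k * t ^ (d - k))]
  refine Finset.sum_congr rfl fun k _ => ?_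
  rw [Pool.Agent.Q210.PO.pol_coeff c k]

theorem form_coeffs {d : ℕ} (P : ℤ[X]) (s t : ℂ) :
    form (coeffs d P) s t = Pool.Agent.Q170.PO.hfm d P s t := by
  unfold form Pool.Agent.Q170.PO.hfm coeffs
  rw [← Fin.sum_univ_eq_sum_range (fun k => (P.coeff k : ℂ) * s ^ k * t ^ (d - k))]

theorem curve_eq {n d : ℕ} (m : ℤ) (a : Fin n → Fin (d + 1) → ℤ) (g : Fin n → ℤ[X]) :
    curve m a g = Pool.Agent.Q170.PO.crv m (fun _ => d)
      (fun i => Pool.Agent.Q170.PO.pol (a i)) g := by
  unfold curve Pool.Agent.Q170.PO.crv
  simp only [form_coeffs]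
  simp only [form_eq]

theorem poles_of {n d : ℕ} {g : Fin n → ℤ[X]} (h : Admissible d g) :
    Pool.Agent.Q170.PO.Poles d g :=
  ⟨h.ne, h.degree, fun ρ => h.poles (some ρ), h.poles none⟩

/-- No atypical intersections for one hundred percent of the rational curves in `Y(1)^n` with
prescribed poles. -/
theorem result (n d : ℕ) (hd : 0 < d) (g : Fin n → ℤ[X]) (h : Admissible d g) :
    (∃ (Q₁ : ℕ) (E₁ : MvPolynomial (Fin n × Fin (d + 1)) ℤ), E₁ ≠ 0 ∧ ∀ B₁ : ℕ,
      ∃ (Q₂ : ℕ) (E₂ : MvPolynomial (Fin n × Fin (d + 1)) ℤ), E₂ ≠ 0 ∧ ∀ B₂ : ℕ,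
      ∃ (Q₃ : ℕ) (E₃ : MvPolynomial (Fin n × Fin (d + 1)) ℤ), E₃ ≠ 0 ∧
      ∀ (Γ : Set ℂ) (m : ℤ) (a : Fin n → Fin (d + 1) → ℤ), m ≠ 0 →
        (∃ p ≤ B₁, GoodPrime E₁ Q₁ Γ m a p) → (∃ p ≤ B₂, GoodPrime E₂ Q₂ Γ m a p) →
        (∃ p, GoodPrime E₃ Q₃ Γ m a p) → NoAtypical Γ (curve m a g)) ∧
    ∀ Γ : Finset ℂ, (∀ γ ∈ Γ, IsAlgebraic ℚ γ) →
      (∃ (M : ℕ) (b : Fin n → Fin (d + 1) → ℤ), 0 < M ∧
        ∀ (m : ℤ) (a : Fin n → Fin (d + 1) → ℤ), m ≠ 0 → (M : ℤ) ∣ m →
          (∀ i k, (M : ℤ) ∣ a i k - b i k) → NoAtypical (Γ : Set ℂ) (curve m a g)) ∧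
      ∀ ε : ℝ, 0 < ε → ∃ H₀ : ℕ, ∀ H : ℕ, H₀ ≤ H →
        ({q : ℤ × (Fin n → Fin (d + 1) → ℤ) | (|q.1| ≤ H ∧ ∀ i k, |q.2 i k| ≤ H) ∧
          ¬ (q.1 ≠ 0 ∧ NoAtypical (Γ : Set ℂ) (curve q.1 q.2 g))}.ncard : ℝ) ≤
          ε * (2 * H + 1) ^ (1 + n * (d + 1)) := by
  refine ⟨?_, fun Γ hΓ => ⟨?_, fun ε hε => ?_⟩⟩
  · obtain ⟨Q₁, E₁, hE₁, h₁⟩ := Pool.Agent.Q170.PO.crit n d hd g (poles_of h)
    refine ⟨Q₁, E₁, hE₁, fun B₁ => ?_⟩
    obtain ⟨Q₂, E₂, hE₂, h₂⟩ := h₁ B₁
    refine ⟨Q₂, E₂, hE₂, fun B₂ => ?_⟩
    obtain ⟨Q₃, E₃, hE₃, h₃⟩ := h₂ B₂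
    refine ⟨Q₃, E₃, hE₃, fun Γ m a hm k₁ k₂ k₃ => ?_⟩
    rw [curve_eq]
    exact noAtypical_of (h₃ Γ m a hm k₁ k₂ k₃)
  · obtain ⟨M, b, hM, hb⟩ := Pool.Agent.Q170.PO.classes n d hd g (poles_of h) Γ hΓ
    refine ⟨M, b, hM, fun m a hm h1 h2 => ?_⟩
    rw [curve_eq]
    exact noAtypical_of (hb m a hm h1 h2)
  · obtain ⟨H₀, hH₀⟩ := Pool.Agent.Q170.PO.density n d hd g (poles_of h) Γ hΓ ε hε
    refine ⟨H₀, fun H hH => le_trans ?_ (hH₀ H hH)⟩
    refine Nat.cast_le.2 (Set.ncard_le_ncard ?_
      ((Pool.Agent.Q170.PO.box_fin n d H).subset fun q hq => hq.1))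
    rintro q ⟨h1, h2⟩
    refine ⟨h1, fun h3 => h2 ⟨h3.1, ?_⟩⟩
    rw [curve_eq]
    exact noAtypical_of h3.2

end Pool.Agent.Results.MP_d83ecd_ag.PrescribedPoles
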