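import Pool.Agent.Q170.UA.Cnt
import Pool.Agent.Q170.UA.All
import Pool.Agent.Q223.UV.Surj

/-!
# MP_d83ecd_ag: uniform Zilber-Pink for all curves in `Y(1)^n` with cuspidal reduction at one place

`Y(1)^n` is identified with `ℂ^n` by the elliptic modular function `jj = j = E₄³ / Δ`. A special
subvariety of `Y(1)^n` of dimension `r` is given by a `SpecialVariety`: its points are the points
`x` with `x_i = const_i` for the constant coordinates, and `x_i = j (g_i z_l)` for the coordinates of
class `l`, `z_1, …, z_r` free in the upper half plane and `g_i` a fixed integral matrix of positive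
determinant. In the definition of special subvarieties the constants are values of `j` at CM points.
We allow also all constants which are integral over the ring generated by a given set `Γ`; in the
theorem `Γ` is the set of all elements of the number field which are integral at the place `v`.
A point of a curve on a special subvariety of codimension at least two is called atypical. The
Zilber-Pink conjecture for a curve which is not contained in a proper special subvariety says that
the curve has only finitely many atypical points.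

**The curves** (the same as in the starting file `CuspidalReduction`). Let `K` be a number field and
`v` a prime of `K`. A subscheme `V` of `(P¹)^n` over `𝓞 K` is given by forms `F_t` with coefficients
in `𝓞 K` in the homogeneous coordinates `(X_1, Z_1), …, (X_n, Z_n)`: the variables are
`(i, false) = X_i` and `(i, true) = Z_i`, and `x_i = X_i / Z_i` is the `i`-th coordinate. We say that
`V` has integral reduction in general position at `v`, of degree at most `d` (`IntegralReduction v d F`)
if
* the reduction `V̄` of `V` at `v` is (geometrically) integral: in the affine charts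
  `Z_1 = … = Z_n = 1` and `X_a = 1`, `Z_i = 1` for `i ≠ a` of `(P¹)^n` the ideal of `V̄` is a prime
  ideal, over all algebraically closed fields which contain `𝓞 K / v`, and the coordinates `x_i` are
  not constant on `V̄`;
* `V̄` is in general position: for `i ≠ j` some form
  `∑_{u ≤ a, v ≤ b} g_{uv} X_i ^ u Z_i ^ (a - u) X_j ^ v Z_j ^ (b - v)` with `a, b ≤ d` is in the ideal
  generated by the `F_t`, where `g_{00}, g_{a0}, g_{0b}, g_{ab}` are not in `v`, and the reduction of
  the form is not divisible by a form `X_i - c Z_i`. So the zeros and poles of `x_i` on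
  `V̄` are different from those of `x_j`, and `V̄` is a curve (for `n ≥ 2`) which is covered by the
  charts above.
The reduction may be singular, the genus of `V` is arbitrary.

**Theorem.** For all `n`, `d` and `W` there is a number `D`, and for all `δ` and `B` there is a number
`G`, such that the following holds for each number field `K ⊂ ℂ`, each prime `v` of `K` of norm at most
`B` over a prime number `p > D` which is unramified over `p`, each `V` in `(P¹)^n` which has integral
reduction in general position at `v`, of degree at most `d`, and which is given by forms of degree at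
most `δ` in each variable (any number of them), and all `lam_1, …, lam_n` in `K` with
`v (lam_i) = - w_i e`, where `1 ≤ w_i ≤ W` and `e > 0`. Let `C ⊂ Y(1)^n` be the set of all
`(lam_1 y_1, …, lam_n y_n)`, `y ∈ V ∩ ℂ^n`. Then

1. `C` has at most `G` atypical points;
2. for each atypical point `x` of `C` and each special subvariety `Z` of codimension at least two which
   contains `x` there is an index `a` such that all constant coordinates of `Z` have index `a`, and any
   two coordinates `x_j`, `x_l` with `j, l ≠ a` in the same class are related by an isogeny of degree at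
   most `G`;
3. each proper special subvariety of `Y(1)^n` contains only finitely many points of `C`.

**What is new.** The number `G` depends on `n`, `d`, `W`, `δ` and `B` only: the bound for the number of
atypical points is the same for all curves of this type over all number fields of arbitrary degree
which have an unramified prime of norm at most `B`. For example, it is the same for all curves over the
field of totally `p`-adic numbers (an infinite extension of `ℚ`) with good cuspidal reduction in this
sense, of bounded degree. In the starting file `CuspidalReduction` it is proved that the number of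
atypical points is finite for each such curve, without a bound (and without 2). There the residue
field is arbitrary; here its order is bounded, and the bound `G` depends on it. For example, for
`d = 1` and `W = 1`: there is a number `D` (depending on `n` only), and for `p > D` a number `G`
(depending on `n` and `p`) such that for all number fields `K` and all primes `v` of `K` of norm `p`,
unramified over `p`, all `b_i`, `c_i` in `𝓞 K` which are pairwise incongruent modulo `v`, and all
`lam_i` in `K` with the same negative valuation at `v`, the curve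

  `{(lam_1 (t - b_1) / (t - c_1), …, lam_n (t - b_n) / (t - c_n)) : t ∈ ℂ, t ≠ c_i}`

has at most `G` atypical points.

**Proof.** At an atypical point at most one coordinate of `y` is not a unit at a given place over `v`,
and two coordinates of the same class which are units are related by an isogeny whose degree is
bounded in terms of the tame and wild part of a root of unity in the relation between the Tate
parameters. The tame part is bounded by the finiteness of the solutions of two relations modulo the
square of `p` on `V̄` (this is the method of the starting library, `Pool.Agent.Y92.ZX.Core`); this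
finite set depends only on the reduction of `V` and the `lam_i` modulo the square of `p`, for which
there are finitely many possibilities if the residue field and the degrees are bounded
(`Pool.Agent.Q170.UZ.Cls`). So each atypical point satisfies one of finitely many modular equations
`Φ_N (x_j, x_l) = 0`, `N ≤ G₁`; the number of points of `C` which satisfy such an equation is finite,
hence bounded in terms of the degrees (uniform quasi-finiteness: noetherian induction on the space of
all systems of equations of bounded degree).
-/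

set_option autoImplicit false

namespace Pool.Agent.Results.MP_d83ecd_ag.UniformBoundAtOnePlace

open H294ZP UpperHalfPlane IsDedekindDomain NumberField

/-- A special subvariety of dimension `r` of `Y(1)^n`. The constant coordinates are those with
`cls i = none`. The allowed constants are the singular moduli and the numbers which are integral
over the ring generated by `Γ`. -/
structure SpecialVariety (Γ : Set ℂ) (n r : ℕ) where
  cls : Fin n → Option (Fin r)
  surj : ∀ l : Fin r, ∃ i, cls i = some l
  mat : Fin n → Matrix (Fin 2) (Fin 2) ℤ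
  det_pos : ∀ i, 0 < (mat i).det
  const : Fin n → ℂ
  allowed : ∀ i, (∃ τ : ℍ, IsCM τ ∧ const i = jj τ) ∨ IsIntegral (Algebra.adjoin ℤ Γ) (const i)

/-- The points of a special subvariety of `Y(1)^n`. -/
def SpecialVariety.locus {Γ : Set ℂ} {n r : ℕ} (Z : SpecialVariety Γ n r) : Set (Fin n → ℂ) :=
  {x | ∃ z : Fin r → ℍ, ∀ i, (Z.cls i = none → x i = Z.const i) ∧
    ∀ l, Z.cls i = some l → ∃ w : ℍ,
      (w : ℂ) * (Z.mat i 1 0 * z l + Z.mat i 1 1) = Z.mat i 0 0 * z l + Z.mat i 0 1 ∧
      x i = jj w}

/-- The homogeneous coordinates of the point with affine coordinates `y` in the chart `c` of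
`(P¹)^n`. In the chart `none` they are `X_i = y_i`, `Z_i = 1` for all `i`, in the chart `some a`
they are `X_a = 1`, `Z_a = y_a`, and `X_i = y_i`, `Z_i = 1` for `i ≠ a`. -/
def coord {A : Type} [CommRing A] {n : ℕ} (c : Option (Fin n)) (y : Fin n → A)
    (q : Fin n × Bool) : A :=
  if c = some q.1 then (if q.2 then y q.1 else 1) else (if q.2 then 1 else y q.1)

/-- `F` is homogeneous in each pair of variables `(X_i, Z_i) = ((i, false), (i, true))`. -/
def Multihomogeneous {A : Type} [CommRing A] {n : ℕ} (F : MvPolynomial (Fin n × Bool) A) : Prop :=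
  ∃ δ : Fin n → ℕ, ∀ m ∈ F.support, ∀ i, m (i, false) + m (i, true) = δ i

/-- The form `∑ g_{uv} X_i ^ u Z_i ^ (a - u) X_j ^ v Z_j ^ (b - v)`. -/
noncomputable def pairForm {A : Type} [CommRing A] {n : ℕ} (i j : Fin n) (a b : ℕ)
    (g : ℕ → ℕ → A) : MvPolynomial (Fin n × Bool) A :=
  ∑ u ∈ Finset.range (a + 1), ∑ v ∈ Finset.range (b + 1),
    MvPolynomial.C (g u v) * MvPolynomial.X (i, false) ^ u * MvPolynomial.X (i, true) ^ (a - u) *
      MvPolynomial.X (j, false) ^ v * MvPolynomial.X (j, true) ^ (b - v)

/-- The ideal in the chart `c` of the reduction of the scheme defined by the `F_t`, where `π` is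
the reduction of the coefficients. -/
noncomputable def chartIdeal {A k : Type} [CommRing A] [Field k] {n : ℕ} {κ : Type} (π : A →+* k)
    (F : κ → MvPolynomial (Fin n × Bool) A) (c : Option (Fin n)) :
    Ideal (MvPolynomial (Fin n) k) :=
  Ideal.span (Set.range fun t =>
    MvPolynomial.eval₂ (MvPolynomial.C.comp π) (coord c MvPolynomial.X) (F t))

/-- The scheme defined by the forms `F_t` has integral reduction in general position at `v`, of
degree at most `d`. -/
structure IntegralReduction {K : Type} [Field K] [NumberField K] (v : HeightOneSpectrum (𝓞 K))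
    {n : ℕ} (d : ℕ) {κ : Type} (F : κ → MvPolynomial (Fin n × Bool) (𝓞 K)) : Prop where
  form : ∀ t, Multihomogeneous (F t)
  prime : ∀ (k : Type) [Field k] [IsAlgClosed k] (π : 𝓞 K →+* k), RingHom.ker π = v.asIdeal →
    ∀ c, (chartIdeal π F c).IsPrime
  nonconstant : ∀ (k : Type) [Field k] [IsAlgClosed k] (π : 𝓞 K →+* k),
    RingHom.ker π = v.asIdeal → ∀ (i : Fin n) (c : k),
      MvPolynomial.X i - MvPolynomial.C c ∉ chartIdeal π F none
  general : ∀ i j : Fin n, i ≠ j → ∃ (a b : ℕ) (g : ℕ → ℕ → 𝓞 K), a ≤ d ∧ b ≤ d ∧
    g 0 0 ∉ v.asIdeal ∧ g a 0 ∉ v.asIdeal ∧ g 0 b ∉ v.asIdeal ∧ g a b ∉ v.asIdeal ∧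
    (∀ (k : Type) [Field k] [IsAlgClosed k] (π : 𝓞 K →+* k), RingHom.ker π = v.asIdeal →
      ∀ c : k, ∃ v' ≤ b, ∑ u ∈ Finset.range (a + 1), π (g u v') * c ^ u ≠ 0) ∧
    pairForm i j a b g ∈ Ideal.span (Set.range F)

/-- The set `C` of all `(lam_1 y_1, …, lam_n y_n)`, `y` a zero in `ℂ^n` of all `F_t`. -/
def scaledCurve {K : Type} [Field K] [NumberField K] (σ : K →+* ℂ) {n : ℕ} {κ : Type}
    (F : κ → MvPolynomial (Fin n × Bool) (𝓞 K)) (lam : Fin n → K) : Set (Fin n → ℂ) :=
  {x | ∃ y : Fin n → ℂ, (∀ t, MvPolynomial.eval₂ (σ.comp (algebraMap (𝓞 K) K)) (coord none y)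
    (F t) = 0) ∧ ∀ i, x i = σ (lam i) * y i}

/-- The elements of `K` which are integral at `v`. -/
def integralAt {K : Type} [Field K] [NumberField K] (σ : K →+* ℂ) (v : HeightOneSpectrum (𝓞 K)) :
    Set ℂ :=
  {z | ∃ x : K, v.valuation K x ≤ 1 ∧ σ x = z}

/-- Special subvarieties in the form used in the proof. -/
def SpecialVariety.toSV {Γ : Set ℂ} {n r : ℕ} (Z : SpecialVariety Γ n r) :
    Pool.Agent.Y226.ZM.SV Γ n r where
  cls := Z.cls
  mat := Z.mat
  det_pos := Z.det_pos
  const := Z.const
  int := fun i => by
    rcases Z.allowed i with ⟨τ, hτ, h⟩ | h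
    · rw [h]
      exact (singular_modulus_integral τ hτ).tower_top
    · exact h

/-- The numbers `x = j (z)` and `x' = j (w)` are related by an isogeny of degree at most `G`. -/
def Isogenous (G : ℕ) (x x' : ℂ) : Prop := ∃ (z w : ℍ) (a b c d : ℤ), 0 < a * d - b * c ∧
  a * d - b * c ≤ G ∧ (w : ℂ) * (c * z + d) = a * z + b ∧ x = jj z ∧ x' = jj w

/-- The atypical points of the curve `C`: those on special subvarieties of codimension at least
two. -/
def atypicalPoints {K : Type} [Field K] [NumberField K] (σ : K →+* ℂ) (v : HeightOneSpectrum (𝓞 K))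
    {n : ℕ} {κ : Type} (F : κ → MvPolynomial (Fin n × Bool) (𝓞 K)) (lam : Fin n → K) :
    Set (Fin n → ℂ) :=
  {x | x ∈ scaledCurve σ F lam ∧ ∃ (r : ℕ) (Z : SpecialVariety (integralAt σ v) n r),
    r + 2 ≤ n ∧ x ∈ Z.locus}

theorem isogenous_of {G : ℕ} {x x' : ℂ} (h : Pool.Agent.Q170.UZ.Iso G x x') : Isogenous G x x' := by
  obtain ⟨N, hN0, hN, hΨ⟩ := h
  obtain ⟨z, rfl⟩ := Pool.Agent.Q223.UV.jj_surj x
  obtain ⟨ι, _, α, δ, β, h, h1, h2, -, h4, -⟩ := Pool.Agent.Y226.modular_spec N hN0
  rw [← h4] at hΨ
  obtain ⟨q, -, hq⟩ := Finset.prod_eq_zero_iff.1 hΨ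
  have h5 : (α q : ℤ) * (δ q : ℤ) = N := by exact_mod_cast (h1 q).2.2
  refine ⟨z, h q z, α q, β q, 0, δ q, ?_, ?_, ?_, rfl, sub_eq_zero.1 hq⟩
  · rw [mul_zero, sub_zero, h5]
    exact_mod_cast hN0
  · rw [mul_zero, sub_zero, h5]
    exact_mod_cast hN
  · have h6 := h2 q z
    push_cast
    rw [zero_mul, zero_add]
    exact h6

/-- Uniform Zilber-Pink for all curves in `Y(1)^n` with cuspidal reduction in general position at one
place of bounded norm. -/
theorem result (n d W : ℕ) : ∃ D : ℕ, ∀ δ B : ℕ, ∃ G : ℕ, ∀ (K : Type) [Field K] [NumberField K]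
    (σ : K →+* ℂ) (v : HeightOneSpectrum (𝓞 K)) (p : ℕ), p.Prime → D < p → (p : 𝓞 K) ∈ v.asIdeal →
    (p : 𝓞 K) ∉ v.asIdeal ^ 2 → Nat.card (𝓞 K ⧸ v.asIdeal) ≤ B →
    ∀ (κ : Type) (F : κ → MvPolynomial (Fin n × Bool) (𝓞 K)), IntegralReduction v d F →
    (∀ t, ∀ m ∈ (F t).support, ∀ q, m q ≤ δ) → ∀ (lam : Fin n → K) (e : ℕ) (w : Fin n → ℕ), 0 < e →
    (∀ i, 0 < w i ∧ w i ≤ W ∧ v.valuation K (lam i) = WithZero.exp ((w i * e : ℕ) : ℤ)) →
    (atypicalPoints σ v F lam).Finite ∧ (atypicalPoints σ v F lam).ncard ≤ G ∧
    (∀ (r : ℕ) (Z : SpecialVariety (integralAt σ v) n r), r + 2 ≤ n →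
      ∀ x ∈ scaledCurve σ F lam, x ∈ Z.locus →
      ∃ a : Fin n, (∀ i, Z.cls i = none → i = a) ∧ ∀ (j l : Fin n) (c : Fin r), j ≠ l → j ≠ a →
        l ≠ a → Z.cls j = some c → Z.cls l = some c → Isogenous G (x j) (x l)) ∧
    ∀ (r : ℕ) (Z : SpecialVariety (integralAt σ v) n r), r < n →
      {x | x ∈ scaledCurve σ F lam ∧ x ∈ Z.locus}.Finite := by
  obtain ⟨D, hD⟩ := Pool.Agent.Q170.UA.uniform_all n d W
  refine ⟨D, fun δ B => ?_⟩
  obtain ⟨G, hG⟩ := hD δ B
  refine ⟨G, fun K _ _ σ v p hp hDp hpv hpv2 hcard κ F hF hδ lam e w he hw => ?_⟩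
  obtain ⟨h1, h2, h3, h4⟩ := hG K σ v p hp hDp hpv hpv2 hcard κ F
    ⟨hF.form, hF.prime, hF.nonconstant, hF.general⟩ hδ lam e w he hw
  have hsub : atypicalPoints σ v F lam ⊆ {x : Fin n → ℂ |
      (∃ y ∈ Pool.Agent.Y92.ZX.VK σ F, ∀ i, x i = σ (lam i) * y i) ∧
      ∃ (r : ℕ) (Z : Pool.Agent.Y226.ZM.SV (Pool.Agent.Y92.ZX.intAt σ v) n r),
        r + 2 ≤ n ∧ x ∈ Z.locus} := by
    rintro x ⟨⟨y, hy, hx⟩, r, Z, hr, hZ⟩
    exact ⟨⟨y, hy, hx⟩, r, Z.toSV, hr, hZ⟩
  refine ⟨h3.subset hsub, (Set.ncard_le_ncard hsub h3).trans h4, ?_, ?_⟩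
  · rintro r Z hr x ⟨y, hy, hx⟩ hxZ
    obtain ⟨a, ha1, ha2⟩ := h2 r Z.toSV hr x hxZ ⟨y, hy, hx⟩
    exact ⟨a, ha1, fun j l c hjl hja hla hj hl => isogenous_of (ha2 j l c hjl hja hla hj hl)⟩
  · intro r Z hr
    refine (h1 r Z.toSV hr).subset ?_
    rintro x ⟨⟨y, hy, hx⟩, hZ⟩
    exact ⟨⟨y, hy, hx⟩, hZ⟩

end Pool.Agent.Results.MP_d83ecd_ag.UniformBoundAtOnePlace
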